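import Pool.Agent.Work.MP_cb106b_nt.Two

/-!
# Solutions with at most two prime factors which are not Fermat primes: classification
-/

set_option autoImplicit false

namespace Pool.Agent.Work.MP_cb106b_nt.FP

open Finset

/-- Factorisations of `A² - A + 1` for `A = 2 ^ (2 ^ j)`, `j ≤ 5`, `s < v`. -/
theorem fac6 {A s v : ℕ} (hA : A = 2 ∨ A = 4 ∨ A = 16 ∨ A = 256 ∨ A = 65536 ∨ A = 4294967296)
    (hsv : s < v) (h : s * v + A = A ^ 2 + 1) :
    s = 1 ∨ (A = 256 ∧ s = 97 ∧ v = 673) ∨ (A = 65536 ∧ s = 193 ∧ v = 22253377) := by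
  have pr : ∀ p : ℕ, p.Prime → s * v = p → s = 1 := by
    intro p hp hh
    rcases (Nat.dvd_prime hp).1 (Dvd.intro _ hh) with h1 | h1
    · exact h1
    · exfalso
      rw [h1] at hh
      have : v = 1 := Nat.eq_of_mul_eq_mul_left hp.pos (by rw [hh, mul_one])
      have := hp.two_le
      omega
  rcases hA with rfl | rfl | rfl | rfl | rfl | rfl
  · exact Or.inl (pr 3 (by norm_num) (by omega))
  · exact Or.inl (pr 13 (by norm_num) (by omega))
  · exact Or.inl (pr 241 (by norm_num) (by omega))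
  · have h1 : s * v = 97 * 673 := by omega
    have hp : Nat.Prime 673 := by norm_num
    have hd : 673 ∣ s * v := by rw [h1]; exact dvd_mul_left _ _
    rcases (Nat.Prime.dvd_mul hp).1 hd with hd | hd
    · exfalso
      obtain ⟨w, rfl⟩ := hd
      have : 673 * w * v = 97 * 673 := h1
      rcases Nat.eq_zero_or_pos w with rfl | hw
      · simp at this
      · nlinarith
    · obtain ⟨w, rfl⟩ := hd
      have h2 : s * w = 97 := by nlinarith
      rcases (Nat.dvd_prime (by norm_num : Nat.Prime 97)).1 (Dvd.intro _ h2) with h3 | h3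
      · exact Or.inl h3
      · right; left
        rw [h3] at h2
        refine ⟨rfl, h3, ?_⟩
        omega
  · have h1 : s * v = 193 * 22253377 := by omega
    have hp : Nat.Prime 22253377 := by norm_num
    have hd : 22253377 ∣ s * v := by rw [h1]; exact dvd_mul_left _ _
    rcases (Nat.Prime.dvd_mul hp).1 hd with hd | hd
    · exfalso
      obtain ⟨w, rfl⟩ := hd
      have : 22253377 * w * v = 193 * 22253377 := h1
      rcases Nat.eq_zero_or_pos w with rfl | hw
      · simp at this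
      · nlinarith
    · obtain ⟨w, rfl⟩ := hd
      have h2 : s * w = 193 := by nlinarith
      rcases (Nat.dvd_prime (by norm_num : Nat.Prime 193)).1 (Dvd.intro _ h2) with h3 | h3
      · exact Or.inl h3
      · right; right
        rw [h3] at h2
        refine ⟨rfl, h3, ?_⟩
        omega
  · exact Or.inl (pr 18446744069414584321 prime_gold (by omega))

/-- One prime factor which is not a Fermat prime. -/
theorem one_false {A R W q : ℤ} (hA : 2 ≤ A) (hq : A + 1 ≠ q)
    (hRW : R = 1 ∧ W = 1 ∨ (A ^ 2 - 1) * R < A ^ 2 * W ∧ A ^ 2 ∣ W ∧ A ^ 2 ∣ R - 1 ∧ 1 ≤ W)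
    (h : (A - 1) * R * q + 1 = A * W * (q - 1)) (hq1 : 1 < q) : False := by
  rcases hRW with ⟨rfl, rfl⟩ | ⟨h1, h2, h3, hW⟩
  · apply hq; linarith
  · have hd : A ^ 2 ∣ q - (A + 1) := by
      have e2 : q - (A + 1) = A ^ 2 * q + (A ^ 2 - 1) * (R - 1) * q
          - (A + 1) * A * W * (q - 1) := by
        linear_combination (-(A + 1)) * h
      rw [e2]
      exact dvd_sub (dvd_add (dvd_mul_right _ _) ((h3.mul_left _).mul_right _))
        ((h2.mul_left _).mul_right _)
    have hWA : A ^ 2 ≤ W := Int.le_of_dvd (by linarith) h2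
    have hlt : q < A + 2 := by
      by_contra hcon
      push Not at hcon
      have e3 : (A + 1) * ((A - 1) * R * q + 1) = (A + 1) * (A * W * (q - 1)) := by rw [h]
      have e4 : (A ^ 2 - 1) * R * q ≤ (A ^ 2 * W - 1) * q :=
        mul_le_mul_of_nonneg_right (by linarith) (by linarith)
      have e5 : (A * W) * (A * q) + (A * W) * 1 ≤ (A * W) * ((A + 1) * (q - 1)) := by
        rw [← mul_add]
        exact mul_le_mul_of_nonneg_left (by nlinarith) (by positivity)
      nlinarith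
    have hlo : A < q := by
      by_contra hcon
      push Not at hcon
      -- R ≥ 1 and divisibility
      obtain ⟨c, hc⟩ := hd
      have hc0 : c < 0 := by
        by_contra h0
        push Not at h0
        have : 0 ≤ A ^ 2 * c := by positivity
        linarith
      have : A ^ 2 * c ≤ A ^ 2 * (-1) := mul_le_mul_of_nonneg_left (by omega) (by positivity)
      nlinarith
    omega

/-- No prime factor which is not a Fermat prime. -/
theorem zero_case {A R W : ℤ} (hA : 2 ≤ A)
    (hRW : R = 1 ∧ W = 1 ∨ (A ^ 2 - 1) * R < A ^ 2 * W ∧ A ^ 2 ∣ W ∧ A ^ 2 ∣ R - 1 ∧ 1 ≤ W)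
    (h : (A - 1) * R + 1 = A * W) : R = 1 := by
  rcases hRW with ⟨rfl, rfl⟩ | ⟨h1, h2, h3, hW⟩
  · rfl
  · exfalso
    have hd : A ^ 2 ∣ A := by
      have e2 : A * W - (A - 1) * (R - 1) = A := by linear_combination -h
      have e3 : A ^ 2 ∣ A * W - (A - 1) * (R - 1) := dvd_sub (h2.mul_left _) (h3.mul_left _)
      rwa [e2] at e3
    have := Int.le_of_dvd (by linarith) hd
    nlinarith

/-- Estimate for Fermat products with large indices. -/
theorem pF_lt_from {W : Finset ℕ} {k0 : ℕ} (h : ∀ k ∈ W, k0 ≤ k) :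
    ((2 : ℤ) ^ (2 ^ k0) - 1) * pF W < (2 : ℤ) ^ (2 ^ k0) * pW W := by
  have hd : Disjoint (range k0) W := by
    rw [Finset.disjoint_left]
    intro k hk hk'
    have := h k hk'
    rw [mem_range] at hk
    omega
  have h1 := pF_lt (range k0 ∪ W)
  have e1 : pF (range k0 ∪ W) = pF (range k0) * pF W := prod_union hd
  have e2 : pW (range k0 ∪ W) = pW (range k0) * pW W := prod_union hd
  have h2 := pF_range k0
  have h3 := pW_range k0
  rw [e1, e2, ← mul_assoc, h3] at h1
  have h4 : ((pF (range k0) : ℕ) : ℤ) + 1 = (2 : ℤ) ^ (2 ^ k0) := by exact_mod_cast h2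
  have h5 : ((pF (range k0) : ℕ) : ℤ) * pF W < (2 : ℤ) ^ (2 ^ k0) * pW W := by exact_mod_cast h1
  have h6 : ((pF (range k0) : ℕ) : ℤ) = (2 : ℤ) ^ (2 ^ k0) - 1 := by linarith
  rw [h6] at h5
  exact h5

theorem pF_dvd_sub {W : Finset ℕ} {k0 : ℕ} (h : ∀ k ∈ W, k0 ≤ k) :
    (2 : ℤ) ^ (2 ^ k0) ∣ (pF W : ℤ) - 1 := by
  have h1 := (pF_mod h).symm
  have h2 := (Nat.modEq_iff_dvd).1 h1
  push_cast at h2
  exact h2

theorem pW_dvd' {W : Finset ℕ} {k0 : ℕ} (h : ∀ k ∈ W, k0 ≤ k) (hne : W.Nonempty) :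
    (2 : ℤ) ^ (2 ^ k0) ∣ (pW W : ℤ) := by
  have := pW_dvd h hne
  exact_mod_cast this

/-- **Classification**: at most two prime factors which are not Fermat primes. -/
theorem class2 {n : ℕ} (hn : 3 ≤ n) (h : Nat.totient n ∣ n + 1) (hT : (TT n).card ≤ 2) :
    (∃ k : ℕ, 1 ≤ k ∧ k ≤ 5 ∧ n = 2 ^ (2 ^ k) - 1) ∨ n = 3 * 5 * 17 * 353 * 929 := by
  have heq := eq_two hn h hT
  have hs := sol_sqf hn h
  have e1 := n_eq hs
  have e2 := phi_eq hs (by omega)
  have hm := fun p hp => T_mem (p := p) hn h hp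
  obtain ⟨j, hj5, hjlt, hjn⟩ := exists_least n
  have hsub : range j ⊆ KK n := fun k hk => hjlt k (mem_range.1 hk)
  set K' := KK n \ range j with hK'
  have hK'j : ∀ k ∈ K', j + 1 ≤ k := by
    intro k hk
    rw [hK', mem_sdiff, mem_range] at hk
    have : k ≠ j := by rintro rfl; exact hjn hk.1
    omega
  have e3 : pF (KK n) = pF K' * pF (range j) := (prod_sdiff hsub).symm
  have e4 : pW (KK n) = pW K' * pW (range j) := (prod_sdiff hsub).symm
  have e5 := pF_range j
  have e6 := pW_range j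
  obtain ⟨A, hA⟩ : ∃ A : ℕ, A = 2 ^ (2 ^ j) := ⟨_, rfl⟩
  have hA6 : A = 2 ∨ A = 4 ∨ A = 16 ∨ A = 256 ∨ A = 65536 ∨ A = 4294967296 := by
    rw [hA]; interval_cases j <;> norm_num
  have hA2 : 2 ≤ A := by omega
  have hAe : A % 2 = 0 := by omega
  have hAF : A + 1 = Nat.fermatNumber j := by rw [hA]; rfl
  rw [← hA] at e5 e6
  have hAp2 : (2 : ℤ) ^ (2 ^ (j + 1)) = (A : ℤ) ^ 2 := by
    rw [hA, pow_succ]; push_cast; rw [← pow_mul]
  have hAp4 : (2 : ℤ) ^ (2 ^ (j + 2)) = (A : ℤ) ^ 4 := by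
    rw [hA, pow_add]; push_cast; rw [← pow_mul]
  have hWpos := pW_pos K'
  have hWR := pW_le_pF K'
  -- the equation over the integers
  have key : ((A : ℤ) - 1) * pF K' * ((∏ p ∈ TT n, p : ℕ) : ℤ) + 1 =
      A * pW K' * ((∏ p ∈ TT n, (p - 1) : ℕ) : ℤ) := by
    have h1 : n + 1 = 2 * (pW K' * pW (range j) * ∏ p ∈ TT n, (p - 1)) := by
      rw [heq, e2, e4]
    have h2 : n = pF K' * pF (range j) * ∏ p ∈ TT n, p := by
      conv_lhs => rw [e1, e3]
    have h3 : (pF K' * pF (range j) * ∏ p ∈ TT n, p) + 1 =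
        A * pW K' * ∏ p ∈ TT n, (p - 1) := by
      rw [← h2, h1, ← e6]; ring
    have h4 : ((pF (range j) : ℕ) : ℤ) = (A : ℤ) - 1 := by
      have : ((pF (range j) : ℕ) : ℤ) + 1 = A := by exact_mod_cast e5
      linarith
    have h5 : ((pF K' : ℕ) : ℤ) * ((pF (range j) : ℕ) : ℤ) * ((∏ p ∈ TT n, p : ℕ) : ℤ) + 1 =
        A * pW K' * ((∏ p ∈ TT n, (p - 1) : ℕ) : ℤ) := by exact_mod_cast h3
    rw [h4] at h5
    linarith
  have hRW : ((pF K' : ℕ) : ℤ) = 1 ∧ ((pW K' : ℕ) : ℤ) = 1 ∨
      ((A : ℤ) ^ 2 - 1) * pF K' < (A : ℤ) ^ 2 * pW K' ∧ (A : ℤ) ^ 2 ∣ (pW K' : ℤ) ∧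
      (A : ℤ) ^ 2 ∣ (pF K' : ℤ) - 1 ∧ 1 ≤ (pW K' : ℤ) := by
    rcases K'.eq_empty_or_nonempty with h0 | h0
    · left; rw [h0]; simp [pF, pW]
    · right
      rw [← hAp2]
      exact ⟨pF_lt_from hK'j, pW_dvd' hK'j h0, pF_dvd_sub hK'j, by exact_mod_cast hWpos⟩
  have hAZ : (2 : ℤ) ≤ A := by exact_mod_cast hA2
  rcases Nat.lt_or_ge (TT n).card 1 with h0 | h1
  · -- no other prime
    have hT0 : TT n = ∅ := card_eq_zero.1 (by omega)
    rw [hT0] at key
    simp only [prod_empty, Nat.cast_one, mul_one] at key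
    have hR := zero_case hAZ hRW key
    have hR' : pF K' = 1 := by exact_mod_cast hR
    left
    refine ⟨j, ?_, hj5, ?_⟩
    · by_contra hj
      have hj0 : j = 0 := by omega
      have : A = 2 := by rw [hA, hj0]; norm_num
      rw [e3, hR', hT0] at e1
      simp only [prod_empty] at e1
      omega
    · rw [e3, hR', hT0] at e1
      simp only [prod_empty] at e1
      rw [← hA]
      omega
  rcases Nat.lt_or_ge (TT n).card 2 with h1' | h2
  · -- one other prime
    exfalso
    obtain ⟨q, hq⟩ := card_eq_one.1 (by omega : (TT n).card = 1)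
    rw [hq] at hm key
    obtain ⟨hq1, -, hq7, hq2, hqF⟩ := hm q (mem_singleton_self q)
    simp only [prod_singleton] at key
    rw [Nat.cast_sub (by omega)] at key
    refine one_false hAZ ?_ hRW (by exact_mod_cast key) (by exact_mod_cast (by omega : 1 < q))
    intro hh
    apply hqF j
    rw [← hAF]
    exact_mod_cast hh.symm
  · -- two other primes
    obtain ⟨q, r, hlt, hqm, hrm, hq⟩ : ∃ q r, q < r ∧ q ∈ TT n ∧ r ∈ TT n ∧ TT n = {q, r} := by
      obtain ⟨q, r, hqr, hq⟩ := card_eq_two.1 (by omega : (TT n).card = 2)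
      rcases Nat.lt_or_gt_of_ne hqr with h3 | h3
      · exact ⟨q, r, h3, by rw [hq]; simp, by rw [hq]; simp, hq⟩
      · exact ⟨r, q, h3, by rw [hq]; simp, by rw [hq]; simp, by rw [hq, pair_comm]⟩
    obtain ⟨hq1, -, hq7, hq2, hqF⟩ := hm q hqm
    obtain ⟨hr1, -, hr7, hr2, hrF⟩ := hm r hrm
    rw [hq, prod_pair hlt.ne, prod_pair hlt.ne] at key
    have hqA : q ≠ A + 1 := by rw [hAF]; exact hqF j
    have hr2' : q + 2 ≤ r := by omega
    have key' : ((A : ℤ) - 1) * pF K' * q * r + 1 = A * pW K' * ((q : ℤ) - 1) * ((r : ℤ) - 1) := by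
      have c1 : ((q * r : ℕ) : ℤ) = q * r := by push_cast; ring
      have c2 : (((q - 1) * (r - 1) : ℕ) : ℤ) = ((q : ℤ) - 1) * ((r : ℤ) - 1) := by
        rw [Nat.cast_mul, Nat.cast_sub (by omega), Nat.cast_sub (by omega)]
        push_cast; ring
      rw [c1, c2] at key
      linarith
    have hqA1 : A < q := by
      by_contra hcon
      have hcon' : (q : ℤ) ≤ A := by exact_mod_cast (by omega : q ≤ A)
      have g1 : ((A : ℤ) - 1) * pW K' * (q * r) ≤ ((A : ℤ) - 1) * pF K' * (q * r) := by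
        refine mul_le_mul_of_nonneg_right (mul_le_mul_of_nonneg_left ?_ (by linarith))
          (by positivity)
        exact_mod_cast hWR
      have hq7' : (7 : ℤ) ≤ q := by exact_mod_cast hq7
      have hr7' : (7 : ℤ) ≤ r := by exact_mod_cast hr7
      have hW1 : (1 : ℤ) ≤ pW K' := by exact_mod_cast hWpos
      have g2 : (A : ℤ) * (((q : ℤ) - 1) * ((r : ℤ) - 1)) ≤ ((A : ℤ) - 1) * (q * r) := by nlinarith
      have g3 : (pW K' : ℤ) * ((A : ℤ) * (((q : ℤ) - 1) * ((r : ℤ) - 1))) ≤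
          (pW K' : ℤ) * (((A : ℤ) - 1) * (q * r)) := mul_le_mul_of_nonneg_left g2 (by linarith)
      nlinarith
    have hq3 : A + 3 ≤ q := by omega
    rcases K'.eq_empty_or_nonempty with hK0 | hK0
    · -- only the primes of the tower
      rw [hK0] at key'
      simp only [pF, pW, prod_empty, Nat.cast_one, mul_one] at key'
      obtain ⟨s, rfl⟩ := Nat.exists_eq_add_of_le hqA1.le
      obtain ⟨v, rfl⟩ := Nat.exists_eq_add_of_le (hqA1.le.trans hlt.le)
      have hsv : s < v := by omega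
      have h5 : s * v + A = A ^ 2 + 1 := by
        have : ((s : ℤ) * v + A) = A ^ 2 + 1 := by
          push_cast at key'
          linear_combination -key'
        exact_mod_cast this
      rcases fac6 hA6 hsv h5 with h6 | ⟨h6, h7, h8⟩ | ⟨h6, h7, h8⟩
      · exact absurd (by rw [h6]) hqA
      · right
        subst h6 h7 h8
        have e7 : n = 255 * (353 * 929) := by
          have : pF (range j) = 255 := by omega
          rw [e3, hK0, this, hq, prod_pair (by norm_num)] at e1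
          simpa [pF] using e1
        rw [e7]
      · exfalso
        subst h6 h7 h8
        exact absurd hr1 (by norm_num)
    · -- further Fermat primes
      exfalso
      have hAn : (A : ℤ) = 2 ∨ (A : ℤ) = 4 ∨ (A : ℤ) = 16 ∨ (A : ℤ) = 256 ∨ (A : ℤ) = 65536 ∨
          (A : ℤ) = 4294967296 := by exact_mod_cast hA6
      have hq3' : (A : ℤ) + 3 ≤ q := by exact_mod_cast hq3
      have hr3' : (q : ℤ) + 2 ≤ r := by exact_mod_cast hr2'
      by_cases hj1 : j + 1 ∈ K'
      · set K'' := K'.erase (j + 1) with hK''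
        have hK''j : ∀ k ∈ K'', j + 2 ≤ k := by
          intro k hk
          rw [hK'', mem_erase] at hk
          have := hK'j k hk.2
          omega
        have f1 : pF K' = Nat.fermatNumber (j + 1) * pF K'' := (mul_prod_erase K' _ hj1).symm
        have f2 : pW K' = 2 ^ (2 ^ (j + 1)) * pW K'' := (mul_prod_erase K' _ hj1).symm
        have f1' : ((pF K' : ℕ) : ℤ) = ((A : ℤ) ^ 2 + 1) * pF K'' := by
          rw [f1]; unfold Nat.fermatNumber; push_cast; rw [hAp2]
        have f2' : ((pW K' : ℕ) : ℤ) = (A : ℤ) ^ 2 * pW K'' := by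
          rw [f2]; push_cast; rw [hAp2]
        refine caseI hAZ (R' := pF K'') (W' := pW K'') (by exact_mod_cast pW_pos K'')
          (by rw [← hAp2]; exact pF_lt_from hK'j) f1' f2' ?_ hq3' hr3' ?_ key'
        · rcases hAn with h6 | h6
          · exact Or.inl h6
          · right
            have h4A : (4 : ℤ) ∣ A := by omega
            have h4A' : 4 * (A : ℤ) ^ 3 ∣ (A : ℤ) ^ 4 := by
              obtain ⟨w, hw⟩ := h4A
              exact ⟨w, by rw [pow_succ (A : ℤ) 3]; nth_rewrite 2 [hw]; ring⟩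
            refine ⟨h4A', h4A'.trans ?_⟩
            rw [← hAp4]
            exact pF_dvd_sub hK''j
        · obtain ⟨x, hx⟩ : ∃ x : ℤ, (q : ℤ) - 1 = 2 * x := ⟨((q : ℤ) - 1) / 2, by omega⟩
          obtain ⟨y, hy⟩ : ∃ y : ℤ, (r : ℤ) - 1 = 2 * y := ⟨((r : ℤ) - 1) / 2, by omega⟩
          rw [hx, hy]
          exact ⟨x * y, by ring⟩
      · have hK'j2 : ∀ k ∈ K', j + 2 ≤ k := by
          intro k hk
          have h6 := hK'j k hk
          have : k ≠ j + 1 := by rintro rfl; exact hj1 hk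
          omega
        refine caseII hAn (R := pF K') (W := pW K') (by exact_mod_cast hWpos) ?_ ?_ ?_ hq3' hr3'
          key'
        · rw [← hAp4]; exact pF_lt_from hK'j2
        · rw [← hAp4]; exact pW_dvd' hK'j2 hK0
        · rw [← hAp4]; exact pF_dvd_sub hK'j2

end Pool.Agent.Work.MP_cb106b_nt.FP
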