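import Mathlib

/-!
# Solutions of `φ(n) ∣ n + 1` and Fermat primes

Basic facts: the Fermat part of a solution.
-/

set_option autoImplicit false

namespace Pool.Agent.Work.MP_cb106b_nt.FP

open Finset

/-- Product of Fermat numbers. -/
def pF (W : Finset ℕ) : ℕ := ∏ k ∈ W, Nat.fermatNumber k

/-- Product of the numbers `2 ^ (2 ^ k)`. -/
def pW (W : Finset ℕ) : ℕ := ∏ k ∈ W, 2 ^ (2 ^ k)

theorem pW_pos (W : Finset ℕ) : 0 < pW W := prod_pos fun _ _ => by positivity

theorem pF_pos (W : Finset ℕ) : 0 < pF W :=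
  prod_pos fun k _ => by have := Nat.three_le_fermatNumber k; omega

theorem pF_range (j : ℕ) : pF (range j) + 1 = 2 ^ (2 ^ j) := by
  have h := Nat.prod_fermatNumber j
  have h2 : 2 ≤ 2 ^ (2 ^ j) := by
    calc 2 = 2 ^ 1 := rfl
      _ ≤ 2 ^ (2 ^ j) := Nat.pow_le_pow_right (by norm_num) Nat.one_le_two_pow
  unfold pF
  rw [h]
  unfold Nat.fermatNumber
  omega

theorem pW_range (j : ℕ) : 2 * pW (range j) = 2 ^ (2 ^ j) := by
  induction j with
  | zero => rfl
  | succ j ih =>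
    unfold pW at *
    rw [prod_range_succ, ← mul_assoc, ih, ← pow_add, pow_succ 2 j]
    congr 1; ring

theorem pW_le_pF (W : Finset ℕ) : pW W ≤ pF W :=
  prod_le_prod' fun k _ => by unfold Nat.fermatNumber; omega

theorem pF_lt (W : Finset ℕ) : pF W < 2 * pW W := by
  obtain ⟨L, hL⟩ := W.exists_nat_subset_range
  have h1 : pF (range L) = pF (range L \ W) * pF W := (prod_sdiff hL).symm
  have h2 : pW (range L) = pW (range L \ W) * pW W := (prod_sdiff hL).symm
  have h3 := pF_range L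
  have h4 := pW_range L
  have h5 := pW_le_pF (range L \ W)
  have h6 := pW_pos (range L \ W)
  have h7 : pW (range L \ W) * pF W < pW (range L \ W) * (2 * pW W) := by
    calc pW (range L \ W) * pF W ≤ pF (range L \ W) * pF W := Nat.mul_le_mul_right _ h5
      _ = pF (range L) := h1.symm
      _ < 2 ^ (2 ^ L) := by omega
      _ = 2 * pW (range L) := h4.symm
      _ = pW (range L \ W) * (2 * pW W) := by rw [h2]; ring
  exact Nat.lt_of_mul_lt_mul_left h7

theorem pF_mod {W : Finset ℕ} {k0 : ℕ} (h : ∀ k ∈ W, k0 ≤ k) :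
    pF W ≡ 1 [MOD 2 ^ (2 ^ k0)] := by
  unfold pF
  have : ∏ k ∈ W, Nat.fermatNumber k ≡ ∏ k ∈ W, 1 [MOD 2 ^ (2 ^ k0)] := by
    refine Nat.ModEq.prod fun k hk => ?_
    have h1 : 2 ^ (2 ^ k0) ∣ 2 ^ (2 ^ k) :=
      pow_dvd_pow 2 (Nat.pow_le_pow_right (by norm_num) (h k hk))
    unfold Nat.fermatNumber
    have h2 : 2 ^ (2 ^ k) ≡ 0 [MOD 2 ^ (2 ^ k0)] := (Nat.modEq_zero_iff_dvd).2 h1
    simpa using h2.add_right 1
  simpa using this

theorem pW_dvd {W : Finset ℕ} {k0 : ℕ} (h : ∀ k ∈ W, k0 ≤ k) (hne : W.Nonempty) :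
    2 ^ (2 ^ k0) ∣ pW W := by
  obtain ⟨k, hk⟩ := hne
  exact (pow_dvd_pow 2 (Nat.pow_le_pow_right (by norm_num) (h k hk))).trans
    (dvd_prod_of_mem (fun k => 2 ^ (2 ^ k)) hk)

/-! ### The decomposition -/

/-- The indices of the Fermat primes dividing `n`. -/
def KK (n : ℕ) : Finset ℕ := (range n).filter (fun k => Nat.fermatNumber k ∈ n.primeFactors)

open Classical in
/-- The prime factors which are not Fermat primes. -/
noncomputable def TT (n : ℕ) : Finset ℕ :=
  n.primeFactors.filter (fun p => ¬ ∃ k, p = Nat.fermatNumber k)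

theorem mem_KK {n k : ℕ} : k ∈ KK n ↔ Nat.fermatNumber k ∈ n.primeFactors := by
  unfold KK
  rw [mem_filter, mem_range]
  constructor
  · exact fun h => h.2
  · intro h
    refine ⟨?_, h⟩
    have h1 := Nat.le_of_dvd (Nat.pos_of_ne_zero (Nat.mem_primeFactors.1 h).2.2)
      (Nat.dvd_of_mem_primeFactors h)
    have h2 : k < Nat.fermatNumber k := by
      unfold Nat.fermatNumber
      have h3 : k < 2 ^ k := Nat.lt_two_pow_self
      have h4 : 2 ^ k < 2 ^ (2 ^ k) := Nat.lt_two_pow_self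
      omega
    omega

theorem primeFactors_eq (n : ℕ) :
    n.primeFactors = (KK n).image Nat.fermatNumber ∪ TT n := by
  classical
  ext p
  rw [mem_union, mem_image, TT, mem_filter]
  constructor
  · intro hp
    by_cases h : ∃ k, p = Nat.fermatNumber k
    · obtain ⟨k, rfl⟩ := h
      exact Or.inl ⟨k, mem_KK.2 hp, rfl⟩
    · exact Or.inr ⟨hp, h⟩
  · rintro (⟨k, hk, rfl⟩ | h)
    · exact mem_KK.1 hk
    · exact h.1

theorem disj (n : ℕ) : Disjoint ((KK n).image Nat.fermatNumber) (TT n) := by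
  classical
  rw [Finset.disjoint_left]
  intro p hp hT
  rw [TT, mem_filter] at hT
  obtain ⟨k, -, rfl⟩ := mem_image.1 hp
  exact hT.2 ⟨k, rfl⟩

theorem n_eq {n : ℕ} (h : Squarefree n) : n = pF (KK n) * ∏ p ∈ TT n, p := by
  conv_lhs => rw [← Nat.prod_primeFactors_of_squarefree h]
  rw [primeFactors_eq, prod_union (disj n), prod_image]
  · rfl
  · exact fun _ _ _ _ hh => Nat.fermatNumber_injective hh

theorem phi_eq {n : ℕ} (h : Squarefree n) (hn : 0 < n) :
    Nat.totient n = pW (KK n) * ∏ p ∈ TT n, (p - 1) := by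
  have h1 : Nat.totient n = ∏ p ∈ n.primeFactors, (p - 1) := by
    have h2 := Nat.totient_mul_prod_primeFactors n
    rw [Nat.prod_primeFactors_of_squarefree h, mul_comm] at h2
    exact Nat.eq_of_mul_eq_mul_left hn h2
  rw [h1, primeFactors_eq, prod_union (disj n), prod_image]
  · rfl
  · exact fun _ _ _ _ hh => Nat.fermatNumber_injective hh

/-! ### Basic facts on solutions -/

theorem sol_odd {n : ℕ} (hn : 3 ≤ n) (h : Nat.totient n ∣ n + 1) : ¬ 2 ∣ n := by
  have h1 : Even (Nat.totient n) := Nat.totient_even (by omega)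
  have h2 : 2 ∣ n + 1 := h1.two_dvd.trans h
  omega

theorem sol_sqf {n : ℕ} (hn : 3 ≤ n) (h : Nat.totient n ∣ n + 1) : Squarefree n := by
  rw [Nat.squarefree_iff_prime_squarefree]
  intro p hp hpp
  have h1 : p ∣ Nat.totient (p * p) := by
    have : Nat.totient (p * p) = p * (p - 1) := by
      have := Nat.totient_prime_pow hp (n := 2) (by norm_num)
      rw [pow_two] at this
      simpa using this
    rw [this]; exact dvd_mul_right _ _
  have h2 : p ∣ n + 1 := (h1.trans (Nat.totient_dvd_of_dvd hpp)).trans h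
  have h3 : p ∣ n := (dvd_mul_right p p).trans hpp
  have h4 : p ∣ 1 := (Nat.dvd_add_right h3).1 h2
  exact hp.one_lt.ne' (Nat.dvd_one.1 h4)

theorem T_mem {n p : ℕ} (hn : 3 ≤ n) (h : Nat.totient n ∣ n + 1) (hp : p ∈ TT n) :
    p.Prime ∧ p ∣ n ∧ 7 ≤ p ∧ ¬ 2 ∣ p ∧ ∀ k, p ≠ Nat.fermatNumber k := by
  classical
  rw [TT, mem_filter] at hp
  obtain ⟨h1, h2⟩ := hp
  have hpr := Nat.prime_of_mem_primeFactors h1
  have hd := Nat.dvd_of_mem_primeFactors h1
  have hnk : ∀ k, p ≠ Nat.fermatNumber k := fun k hk => h2 ⟨k, hk⟩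
  have ho : ¬ 2 ∣ p := fun hh => sol_odd hn h (hh.trans hd)
  refine ⟨hpr, hd, ?_, ho, hnk⟩
  have h3 : p ≠ 3 := hnk 0
  have h5 : p ≠ 5 := hnk 1
  have := hpr.two_le
  by_contra hlt
  interval_cases p <;> first | omega | (revert hpr; decide)

/-- The least index of a Fermat number which is not a prime factor. -/
theorem exists_least (n : ℕ) : ∃ j, j ≤ 5 ∧ (∀ k < j, k ∈ KK n) ∧ j ∉ KK n := by
  have h5 : 5 ∉ KK n := by
    rw [mem_KK]
    intro h
    have h1 := Nat.prime_of_mem_primeFactors h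
    have h2 : Nat.fermatNumber 5 = 641 * 6700417 := by unfold Nat.fermatNumber; norm_num
    rw [h2] at h1
    exact absurd h1 (by norm_num)
  have hex : ∃ j, j ∉ KK n := ⟨5, h5⟩
  classical
  refine ⟨Nat.find hex, Nat.find_min' hex h5, ?_, Nat.find_spec hex⟩
  intro k hk
  have := Nat.find_min hex hk
  exact not_not.1 this


/-! ### The quotient is 2 -/

theorem prod_bound {n : ℕ} (hn : 3 ≤ n) (h : Nat.totient n ∣ n + 1) (hT : (TT n).card ≤ 2) :
    60 * ∏ p ∈ TT n, p ≤ 77 * ∏ p ∈ TT n, (p - 1) := by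
  have hm := fun p hp => T_mem (p := p) hn h hp
  rcases Nat.lt_or_ge (TT n).card 1 with h0 | h1
  · have : TT n = ∅ := card_eq_zero.1 (by omega)
    rw [this]; simp
  rcases Nat.lt_or_ge (TT n).card 2 with h1' | h2
  · obtain ⟨q, hq⟩ := card_eq_one.1 (by omega : (TT n).card = 1)
    rw [hq] at hm ⊢
    obtain ⟨-, -, h7, -⟩ := hm q (mem_singleton_self q)
    simp only [prod_singleton]
    omega
  · obtain ⟨q, r, hqr, hq⟩ := card_eq_two.1 (by omega : (TT n).card = 2)
    rw [hq] at hm ⊢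
    obtain ⟨hq1, -, hq7, hq2, -⟩ := hm q (by simp)
    obtain ⟨hr1, -, hr7, hr2, -⟩ := hm r (by simp)
    rw [prod_pair hqr, prod_pair hqr]
    have key : ∀ a b : ℕ, 7 ≤ a → 11 ≤ b → 60 * (a * b) ≤ 77 * ((a - 1) * (b - 1)) := by
      intro a b ha hb
      obtain ⟨x, rfl⟩ := Nat.exists_eq_add_of_le ha
      obtain ⟨y, rfl⟩ := Nat.exists_eq_add_of_le hb
      have e1 : 7 + x - 1 = 6 + x := by omega
      have e2 : 11 + y - 1 = 10 + y := by omega
      rw [e1, e2]
      nlinarith [Nat.zero_le (x * y)]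
    have big : ∀ a : ℕ, a.Prime → 7 ≤ a → a ≠ 7 → ¬ 2 ∣ a → 11 ≤ a := by
      intro a ha h7 h7' h2
      by_contra hlt
      have : a = 9 := by omega
      subst this
      exact absurd ha (by norm_num)
    by_cases hq' : q = 7
    · have hr' : r ≠ 7 := fun hh => hqr (hq'.trans hh.symm)
      exact key q r hq7 (big r hr1 hr7 hr' hr2)
    · have := key r q hr7 (big q hq1 hq7 hq' hq2)
      rw [mul_comm q r, mul_comm (q - 1) (r - 1)]
      exact this

theorem eq_two {n : ℕ} (hn : 3 ≤ n) (h : Nat.totient n ∣ n + 1) (hT : (TT n).card ≤ 2) :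
    n + 1 = 2 * Nat.totient n := by
  have hs := sol_sqf hn h
  obtain ⟨k, hk⟩ := h
  have h' : Nat.totient n ∣ n + 1 := ⟨k, hk⟩
  have h1 := prod_bound hn h' hT
  have h2 := pF_lt (KK n)
  have e1 := n_eq hs
  have e2 := phi_eq hs (by omega)
  have hQ : 0 < ∏ p ∈ TT n, p := prod_pos fun p hp => (T_mem hn h' hp).1.pos
  have h3 : 60 * n < 154 * Nat.totient n := by
    calc 60 * n = 60 * (pF (KK n) * ∏ p ∈ TT n, p) := by rw [← e1]
      _ = pF (KK n) * (60 * ∏ p ∈ TT n, p) := by ring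
      _ < 2 * pW (KK n) * (60 * ∏ p ∈ TT n, p) :=
        Nat.mul_lt_mul_of_pos_right h2 (by positivity)
      _ ≤ 2 * pW (KK n) * (77 * ∏ p ∈ TT n, (p - 1)) := Nat.mul_le_mul_left _ h1
      _ = 154 * Nat.totient n := by rw [e2]; ring
  have hlt : Nat.totient n < n := Nat.totient_lt n (by omega)
  have hk1 : k ≠ 0 := by rintro rfl; omega
  have hk2 : k ≠ 1 := by rintro rfl; omega
  have hk3 : k < 3 := by
    by_contra hk3
    have hk3' : 3 ≤ k := by omega
    have h4 : Nat.totient n * 3 ≤ Nat.totient n * k := Nat.mul_le_mul_left _ hk3'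
    have hphi : Nat.totient n ≤ 2 := by omega
    have hn6 : n ≤ 5 := by omega
    interval_cases n
    · have : Nat.totient 3 = 2 := by decide
      omega
    · have : Nat.totient 4 = 2 := by decide
      omega
    · have : Nat.totient 5 = 4 := by decide
      omega
  have : k = 2 := by omega
  rw [hk, this]; ring

end Pool.Agent.Work.MP_cb106b_nt.FP
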