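import Pool.Agent.Work.MP_cb106b_nt.Geo

/-!
# Finitely many solutions with a bounded number of prime factors which are not Fermat primes
-/

set_option autoImplicit false

namespace Pool.Agent.Work.MP_cb106b_nt.FP

open Finset Filter

/-- The main estimate for one solution. -/
theorem star_step {n k L t : ℕ} {KL T0 : Finset ℕ} (hn : 3 ≤ n) (h : Nat.totient n ∣ n + 1)
    (hk : n + 1 = k * Nat.totient n) (ht : (TT n).card ≤ t)
    (hK : ∀ i < L, (i ∈ KK n ↔ i ∈ KL)) (hKL : KL ⊆ range L)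
    (hT : ∀ p < 2 ^ (2 ^ L), (p ∈ TT n ↔ p ∈ T0)) (hT0 : ∀ p ∈ T0, p < 2 ^ (2 ^ L))
    (htL : t + 2 ≤ 2 ^ (2 ^ L)) :
    pF KL * (∏ p ∈ T0, p) < k * (pW KL * ∏ p ∈ T0, (p - 1)) ∧
    pF KL * (∏ p ∈ T0, p) ∣ n ∧ pW KL * (∏ p ∈ T0, (p - 1)) ∣ Nat.totient n ∧
    ((k * (pW KL * ∏ p ∈ T0, (p - 1)) : ℕ) * ((1 - 1 / (2 ^ (2 ^ L) : ℚ)) *
      (1 - t / ((2 : ℚ) ^ (2 ^ L) - 1))) - (pF KL * (∏ p ∈ T0, p) : ℕ)) * (n : ℚ) ≤
      (pF KL * (∏ p ∈ T0, p) : ℕ) := by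
  have hs := sol_sqf hn h
  have e1 := n_eq hs
  have e2 := phi_eq hs (by omega)
  have hm := fun p hp => T_mem (p := p) hn h hp
  have hKs : KL ⊆ KK n := fun i hi => (hK i (mem_range.1 (hKL hi))).2 hi
  have hTs : T0 ⊆ TT n := fun p hp => (hT p (hT0 p hp)).2 hp
  obtain ⟨K1, hK1⟩ : ∃ K1, K1 = KK n \ KL := ⟨_, rfl⟩
  obtain ⟨T1, hT1⟩ : ∃ T1, T1 = TT n \ T0 := ⟨_, rfl⟩
  have f1 : pF (KK n) = pF K1 * pF KL := by rw [hK1]; exact (prod_sdiff hKs).symm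
  have f2 : pW (KK n) = pW K1 * pW KL := by rw [hK1]; exact (prod_sdiff hKs).symm
  have f3 : ∏ p ∈ TT n, p = (∏ p ∈ T1, p) * ∏ p ∈ T0, p := by
    rw [hT1]; exact (prod_sdiff hTs).symm
  have f4 : ∏ p ∈ TT n, (p - 1) = (∏ p ∈ T1, (p - 1)) * ∏ p ∈ T0, (p - 1) := by
    rw [hT1]; exact (prod_sdiff hTs).symm
  have hK1L : ∀ i ∈ K1, L ≤ i := by
    intro i hi
    rw [hK1, Finset.mem_sdiff] at hi
    by_contra hlt
    exact hi.2 ((hK i (by omega)).1 hi.1)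
  have hT1L : ∀ p ∈ T1, 2 ^ (2 ^ L) ≤ p := by
    intro p hp
    rw [hT1, Finset.mem_sdiff] at hp
    by_contra hlt
    exact hp.2 ((hT p (by omega)).1 hp.1)
  have hT1m : ∀ p ∈ T1, p ∈ TT n := by
    intro p hp
    rw [hT1, Finset.mem_sdiff] at hp
    exact hp.1
  obtain ⟨m, hmdef⟩ : ∃ m, m = pF KL * (∏ p ∈ T0, p) := ⟨_, rfl⟩
  obtain ⟨f, hfdef⟩ : ∃ f, f = pW KL * (∏ p ∈ T0, (p - 1)) := ⟨_, rfl⟩
  obtain ⟨r, hrdef⟩ : ∃ r, r = pF K1 * (∏ p ∈ T1, p) := ⟨_, rfl⟩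
  obtain ⟨g, hgdef⟩ : ∃ g, g = pW K1 * (∏ p ∈ T1, (p - 1)) := ⟨_, rfl⟩
  have g1 : n = m * r := by
    conv_lhs => rw [e1, f1, f3]
    rw [hmdef, hrdef]; ring
  have g2 : Nat.totient n = f * g := by rw [e2, f2, f4, hfdef, hgdef]; ring
  have hgr : g ≤ r := by
    rw [hgdef, hrdef]
    exact Nat.mul_le_mul (pW_le_pF K1) (prod_le_prod' fun p _ => Nat.sub_le p 1)
  have hr0 : 0 < r := by
    rcases Nat.eq_zero_or_pos r with h0 | h0
    · rw [h0, mul_zero] at g1; omega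
    · exact h0
  have hkey : k * f * g = m * r + 1 := by
    have : k * (f * g) = m * r + 1 := by rw [← g2, ← hk, ← g1]
    rw [← this]; ring
  rw [← hmdef, ← hfdef]
  refine ⟨?_, ⟨r, g1⟩, ⟨g, g2⟩, ?_⟩
  · have h1 : m * r < k * f * r := by
      calc m * r < k * f * g := by omega
        _ ≤ k * f * r := Nat.mul_le_mul_left _ hgr
    exact Nat.lt_of_mul_lt_mul_right h1
  · -- the estimate
    have hZ : (t : ℚ) + 2 ≤ 2 ^ (2 ^ L) := by exact_mod_cast htL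
    obtain ⟨Z, hZdef⟩ : ∃ Z : ℚ, Z = 2 ^ (2 ^ L) := ⟨_, rfl⟩
    rw [← hZdef] at hZ ⊢
    have ht0 : (0 : ℚ) ≤ t := by positivity
    have hZ1 : 0 < Z - 1 := by linarith
    have hZ0 : 0 < Z := by linarith
    have hT1c : ((∏ p ∈ T1, p : ℕ) : ℚ) * (1 - t / (Z - 1)) ≤
        ((∏ p ∈ T1, (p - 1) : ℕ) : ℚ) := by
      refine prod_cmp (fun p hp => (hm p (hT1m p hp)).1.two_le) ?_
      calc ∑ p ∈ T1, (1 : ℚ) / ((p - 1 : ℕ) : ℚ) ≤ ∑ p ∈ T1, 1 / (Z - 1) := by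
            refine sum_le_sum fun p hp => ?_
            refine one_div_le_one_div_of_le hZ1 ?_
            have h1 := hT1L p hp
            have h2 : (Z : ℚ) ≤ p := by rw [hZdef]; exact_mod_cast h1
            have h3 : 1 ≤ p := (hm p (hT1m p hp)).1.one_lt.le
            rw [Nat.cast_sub h3]
            push_cast
            linarith
        _ = (T1.card : ℚ) * (1 / (Z - 1)) := by rw [sum_const, nsmul_eq_mul]
        _ ≤ (t : ℚ) * (1 / (Z - 1)) := by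
            refine mul_le_mul_of_nonneg_right ?_ (by positivity)
            have : T1.card ≤ (TT n).card := card_le_card fun p hp => hT1m p hp
            exact_mod_cast this.trans ht
        _ = t / (Z - 1) := by ring
    have hK1c : (pF K1 : ℚ) * (1 - 1 / Z) ≤ pW K1 := by
      have h1 := pF_lt_from hK1L
      have h2 : ((2 : ℚ) ^ (2 ^ L) - 1) * pF K1 < (2 : ℚ) ^ (2 ^ L) * pW K1 := by exact_mod_cast h1
      rw [← hZdef] at h2
      have h3 : (pF K1 : ℚ) * (1 - 1 / Z) = ((Z - 1) * pF K1) / Z := by field_simp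
      rw [h3, div_le_iff₀ hZ0]
      linarith
    have hμ : (r : ℚ) * ((1 - 1 / Z) * (1 - t / (Z - 1))) ≤ g := by
      have h1 : 0 ≤ 1 - t / (Z - 1) := by
        rw [sub_nonneg, div_le_one hZ1]; linarith
      have h2 : (0 : ℚ) ≤ (∏ p ∈ T1, p : ℕ) := by positivity
      rw [hrdef, hgdef]
      push_cast at hT1c hK1c ⊢
      push_cast at h2
      calc (pF K1 : ℚ) * (∏ p ∈ T1, (p : ℚ)) * ((1 - 1 / Z) * (1 - t / (Z - 1))) =
          ((pF K1 : ℚ) * (1 - 1 / Z)) * ((∏ p ∈ T1, (p : ℚ)) * (1 - t / (Z - 1))) := by ring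
        _ ≤ (pW K1 : ℚ) * ((∏ p ∈ T1, (p : ℚ)) * (1 - t / (Z - 1))) :=
          mul_le_mul_of_nonneg_right hK1c (by positivity)
        _ ≤ _ := mul_le_mul_of_nonneg_left hT1c (by positivity)
    have hkeyQ : ((k * f : ℕ) : ℚ) * g = m * r + 1 := by exact_mod_cast hkey
    have h5 : (((k * f : ℕ) : ℚ) * ((1 - 1 / Z) * (1 - t / (Z - 1))) - m) * r ≤ 1 := by
      have h6 := mul_le_mul_of_nonneg_left hμ (by positivity : (0 : ℚ) ≤ ((k * f : ℕ) : ℚ))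
      nlinarith
    have h7 : (n : ℚ) = m * r := by exact_mod_cast g1
    rw [h7]
    have h8 := mul_le_mul_of_nonneg_left h5 (by positivity : (0 : ℚ) ≤ (m : ℚ))
    nlinarith

/-- The quotient is bounded. -/
theorem quot_bound {n t : ℕ} (hn : 3 ≤ n) (h : Nat.totient n ∣ n + 1) (ht : (TT n).card ≤ t) :
    ∃ k < 2 ^ (t + 1) + 1, n + 1 = k * Nat.totient n := by
  obtain ⟨k, hk⟩ := h
  have h' : Nat.totient n ∣ n + 1 := ⟨k, hk⟩
  have hs := sol_sqf hn h'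
  have e1 := n_eq hs
  have e2 := phi_eq hs (by omega)
  have hm := fun p hp => T_mem (p := p) hn h' hp
  refine ⟨k, ?_, by rw [hk, mul_comm]⟩
  have h1 : ∏ p ∈ TT n, p ≤ 2 ^ t * ∏ p ∈ TT n, (p - 1) := by
    calc ∏ p ∈ TT n, p ≤ ∏ p ∈ TT n, (2 * (p - 1)) :=
          prod_le_prod' fun p hp => by have := (hm p hp).2.2.1; omega
      _ = 2 ^ (TT n).card * ∏ p ∈ TT n, (p - 1) := by rw [prod_mul_distrib, prod_const]
      _ ≤ _ := Nat.mul_le_mul_right _ (Nat.pow_le_pow_right (by norm_num) ht)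
  have h2 := pF_lt (KK n)
  have hQ : 0 < ∏ p ∈ TT n, p := prod_pos fun p hp => (hm p hp).1.pos
  have h3 : n < 2 ^ (t + 1) * Nat.totient n := by
    calc n = pF (KK n) * ∏ p ∈ TT n, p := e1
      _ < 2 * pW (KK n) * ∏ p ∈ TT n, p := Nat.mul_lt_mul_of_pos_right h2 hQ
      _ ≤ 2 * pW (KK n) * (2 ^ t * ∏ p ∈ TT n, (p - 1)) := Nat.mul_le_mul_left _ h1
      _ = 2 ^ (t + 1) * Nat.totient n := by rw [e2, pow_succ]; ring
  by_contra hlt
  have h4 : Nat.totient n * (2 ^ (t + 1) + 1) ≤ Nat.totient n * k :=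
    Nat.mul_le_mul_left _ (by omega)
  have h5 : 0 < Nat.totient n := Nat.totient_pos.2 (by omega)
  have h6 : Nat.totient n * (2 ^ (t + 1) + 1) = 2 ^ (t + 1) * Nat.totient n + Nat.totient n := by
    ring
  omega

theorem prod_Ico {i0 L : ℕ} (h : i0 ≤ L) :
    pF (Ico i0 L) * (2 ^ (2 ^ i0) - 1) = 2 ^ (2 ^ L) - 1 ∧
    pW (Ico i0 L) * 2 ^ (2 ^ i0) = 2 ^ (2 ^ L) := by
  have h1 : pF (range i0) * pF (Ico i0 L) = pF (range L) := prod_range_mul_prod_Ico _ h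
  have h2 : pW (range i0) * pW (Ico i0 L) = pW (range L) := prod_range_mul_prod_Ico _ h
  have a1 := pF_range i0
  have a2 := pF_range L
  have b1 := pW_range i0
  have b2 := pW_range L
  have c1 : pF (range i0) = 2 ^ (2 ^ i0) - 1 := by omega
  have c2 : pF (range L) = 2 ^ (2 ^ L) - 1 := by omega
  constructor
  · rw [← c1, ← c2, mul_comm]; exact h1
  · rw [← b1, ← b2, ← h2]; ring

/-- **Finiteness.** For every `t` there are only finitely many solutions with at most `t` prime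
factors which are not Fermat primes. -/
theorem finite_t (t : ℕ) : {n : ℕ | Nat.totient n ∣ n + 1 ∧ (TT n).card ≤ t}.Finite := by
  classical
  by_contra hinf
  have hinf' : {n : ℕ | 3 ≤ n ∧ Nat.totient n ∣ n + 1 ∧ (TT n).card ≤ t}.Infinite := by
    intro hfin
    apply hinf
    refine (hfin.union (Set.finite_lt_nat 3)).subset ?_
    intro n hn
    by_cases h3 : 3 ≤ n
    · exact Or.inl ⟨h3, hn⟩
    · exact Or.inr (by simpa using h3)
  have hne := hinf'.cofinite_inf_principal_neBot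
  obtain ⟨U, hU⟩ : ∃ U : Ultrafilter ℕ, (U : Filter ℕ) ≤ cofinite ⊓
      𝓟 {n : ℕ | 3 ≤ n ∧ Nat.totient n ∣ n + 1 ∧ (TT n).card ≤ t} :=
    ⟨Ultrafilter.of _, Ultrafilter.of_le _⟩
  have hX : ∀ᶠ n in (U : Filter ℕ), 3 ≤ n ∧ Nat.totient n ∣ n + 1 ∧ (TT n).card ≤ t := by
    have : {n : ℕ | 3 ≤ n ∧ Nat.totient n ∣ n + 1 ∧ (TT n).card ≤ t} ∈ (U : Filter ℕ) :=
      (hU.trans inf_le_right) (mem_principal_self _)
    exact this
  have hbig : ∀ N : ℕ, ∀ᶠ n in (U : Filter ℕ), N < n := by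
    intro N
    refine (hU.trans inf_le_left) ?_
    show {n | N < n} ∈ cofinite
    rw [mem_cofinite]
    refine (Set.finite_le_nat N).subset ?_
    intro n hn
    simpa using hn
  -- the quotient
  obtain ⟨k, hk⟩ : ∃ k, ∀ᶠ n in (U : Filter ℕ), n + 1 = k * Nat.totient n := by
    have h1 : (⋃ k ∈ Set.Iio (2 ^ (t + 1) + 1), {n : ℕ | n + 1 = k * Nat.totient n}) ∈ U := by
      refine mem_of_superset (show {n : ℕ | 3 ≤ n ∧ Nat.totient n ∣ n + 1 ∧ (TT n).card ≤ t} ∈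
        (U : Filter ℕ) from hX) ?_
      intro n hn
      obtain ⟨k, hk1, hk2⟩ := quot_bound hn.1 hn.2.1 hn.2.2
      simp only [Set.mem_iUnion]
      exact ⟨k, hk1, hk2⟩
    rw [Ultrafilter.finite_biUnion_mem_iff (Set.finite_Iio _)] at h1
    obtain ⟨k, -, hk⟩ := h1
    exact ⟨k, hk⟩
  -- the limit sets
  have hKe : ∀ i, ∀ᶠ n in (U : Filter ℕ), (i ∈ KK n ↔ ∀ᶠ n in (U : Filter ℕ), i ∈ KK n) := by
    intro i
    by_cases hi : ∀ᶠ n in (U : Filter ℕ), i ∈ KK n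
    · filter_upwards [hi] with n hn
      exact ⟨fun _ => hi, fun _ => hn⟩
    · have := Ultrafilter.eventually_not.2 hi
      filter_upwards [this] with n hn
      exact ⟨fun h => absurd h hn, fun h => absurd h hi⟩
  have hTe : ∀ i, ∀ᶠ n in (U : Filter ℕ), (i ∈ TT n ↔ ∀ᶠ n in (U : Filter ℕ), i ∈ TT n) := by
    intro i
    by_cases hi : ∀ᶠ n in (U : Filter ℕ), i ∈ TT n
    · filter_upwards [hi] with n hn
      exact ⟨fun _ => hi, fun _ => hn⟩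
    · have := Ultrafilter.eventually_not.2 hi
      filter_upwards [this] with n hn
      exact ⟨fun h => absurd h hn, fun h => absurd h hi⟩
  have hTfin : {p : ℕ | ∀ᶠ n in (U : Filter ℕ), p ∈ TT n}.Finite := by
    by_contra hT
    obtain ⟨s, hs1, hs2⟩ := Set.Infinite.exists_subset_card_eq hT (t + 1)
    have h1 : ∀ᶠ n in (U : Filter ℕ), ∀ p ∈ s, p ∈ TT n :=
      (eventually_all_finset s).2 fun p hp => hs1 hp
    obtain ⟨n, hn1, hn2⟩ := (h1.and hX).exists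
    have h2 : s ⊆ TT n := hn1
    have := card_le_card h2
    omega
  obtain ⟨T0, hT0⟩ : ∃ T0 : Finset ℕ, ∀ p, p ∈ T0 ↔ ∀ᶠ n in (U : Filter ℕ), p ∈ TT n :=
    ⟨hTfin.toFinset, fun p => by simp⟩
  have hlt2 : ∀ x : ℕ, x < 2 ^ (2 ^ x) := fun x =>
    (Nat.lt_two_pow_self).trans Nat.lt_two_pow_self
  obtain ⟨L0, hL0⟩ : ∃ L0, L0 = T0.sup id + t + 6 := ⟨_, rfl⟩
  have hmono : ∀ x L : ℕ, x ≤ L → x < 2 ^ (2 ^ L) := fun x L h => lt_of_le_of_lt h (hlt2 L)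
  have hT0L : ∀ L, L0 ≤ L → ∀ p ∈ T0, p < 2 ^ (2 ^ L) := by
    intro L hL p hp
    have : p ≤ T0.sup id := le_sup (f := id) hp
    exact hmono p L (by omega)
  -- the estimate (star)
  have star : ∀ L, L0 ≤ L →
      let KL := (range L).filter (fun i => ∀ᶠ n in (U : Filter ℕ), i ∈ KK n)
      let m := pF KL * (∏ p ∈ T0, p)
      let f := pW KL * ∏ p ∈ T0, (p - 1)
      m + 1 ≤ k * f ∧ (k * f - m) * 2 ^ (2 ^ L) ≤ (1 + 2 * t) * (k * f) ∧
      (∃ n, 3 ≤ n ∧ Nat.totient n ∣ n + 1 ∧ m ∣ n ∧ f ∣ Nat.totient n) := by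
    intro L hL KL m f
    have hev : ∀ᶠ n in (U : Filter ℕ), (∀ i < L, (i ∈ KK n ↔ i ∈ KL)) ∧
        (∀ p < 2 ^ (2 ^ L), (p ∈ TT n ↔ p ∈ T0)) := by
      have h1 : ∀ᶠ n in (U : Filter ℕ), ∀ i ∈ range L,
          (i ∈ KK n ↔ ∀ᶠ n in (U : Filter ℕ), i ∈ KK n) :=
        (eventually_all_finset (range L)).2 fun i _ => hKe i
      have h2 : ∀ᶠ n in (U : Filter ℕ), ∀ i ∈ range (2 ^ (2 ^ L)),
          (i ∈ TT n ↔ ∀ᶠ n in (U : Filter ℕ), i ∈ TT n) :=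
        (eventually_all_finset (range (2 ^ (2 ^ L)))).2 fun i _ => hTe i
      filter_upwards [h1, h2] with n hn1 hn2
      constructor
      · intro i hi
        rw [hn1 i (mem_range.2 hi)]
        simp only [KL, Finset.mem_filter, Finset.mem_range]
        exact ⟨fun h => ⟨hi, h⟩, fun h => h.2⟩
      · intro p hp
        rw [hn2 p (mem_range.2 hp), hT0]
    have htL : t + 2 ≤ 2 ^ (2 ^ L) := by
      have := hmono (t + 2) L (by omega)
      omega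
    have hall : ∀ᶠ n in (U : Filter ℕ), m < k * f ∧ m ∣ n ∧ f ∣ Nat.totient n ∧
        (((k * f : ℕ) : ℚ) * ((1 - 1 / (2 ^ (2 ^ L) : ℚ)) *
        (1 - t / ((2 : ℚ) ^ (2 ^ L) - 1))) - (m : ℕ)) * (n : ℚ) ≤ (m : ℕ) := by
      filter_upwards [hev, hX, hk] with n hn1 hn2 hn3
      exact star_step hn2.1 hn2.2.1 hn3 hn2.2.2 hn1.1 (filter_subset _ _) hn1.2 (hT0L L hL) htL
    obtain ⟨n, ⟨hn1, hn2, hn3, -⟩, hn5⟩ := (hall.and hX).exists
    refine ⟨hn1, ?_, n, hn5.1, hn5.2.1, hn2, hn3⟩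
    -- the limit
    obtain ⟨Z, hZdef⟩ : ∃ Z : ℚ, Z = 2 ^ (2 ^ L) := ⟨_, rfl⟩
    have hZ : (t : ℚ) + 2 ≤ Z := by rw [hZdef]; exact_mod_cast htL
    have ht0 : (0 : ℚ) ≤ t := by positivity
    have hc : ((k * f : ℕ) : ℚ) * ((1 - 1 / Z) * (1 - t / (Z - 1))) - (m : ℕ) ≤ 0 := by
      by_contra hcon
      push Not at hcon
      obtain ⟨c, hcdef⟩ : ∃ c : ℚ, c = ((k * f : ℕ) : ℚ) * ((1 - 1 / Z) * (1 - t / (Z - 1))) -
        (m : ℕ) := ⟨_, rfl⟩
      rw [← hcdef] at hcon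
      obtain ⟨N, hN⟩ := exists_nat_gt ((m : ℚ) / c)
      obtain ⟨n', hn1', hn2'⟩ := (hall.and (hbig N)).exists
      have h1 := hn1'.2.2.2
      rw [← hZdef, ← hcdef] at h1
      have h2 : (N : ℚ) < n' := by exact_mod_cast hn2'
      rw [div_lt_iff₀ hcon] at hN
      nlinarith
    have hZ1 : 0 < Z - 1 := by linarith
    have hZ0 : 0 < Z := by linarith
    have h3 : (1 : ℚ) - (1 + 2 * t) / Z ≤ (1 - 1 / Z) * (1 - t / (Z - 1)) := by
      have h4 : (1 - 1 / Z) * (1 - t / (Z - 1)) = 1 - (1 + t) / Z := by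
        field_simp
        ring
      rw [h4]
      have : (1 + (t : ℚ)) / Z ≤ (1 + 2 * t) / Z := by
        rw [div_le_div_iff_of_pos_right hZ0]; linarith
      linarith
    have h5 : ((k * f : ℕ) : ℚ) * (1 - (1 + 2 * t) / Z) ≤ (m : ℕ) := by
      have := mul_le_mul_of_nonneg_left h3 (by positivity : (0 : ℚ) ≤ ((k * f : ℕ) : ℚ))
      linarith
    have h6 : (((k * f : ℕ) : ℚ) - (m : ℕ)) * Z ≤ (1 + 2 * t) * ((k * f : ℕ) : ℚ) := by
      have h7 : ((k * f : ℕ) : ℚ) * (1 - (1 + 2 * t) / Z) * Z ≤ (m : ℕ) * Z :=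
        mul_le_mul_of_nonneg_right h5 hZ0.le
      have h8 : ((k * f : ℕ) : ℚ) * (1 - (1 + 2 * t) / Z) * Z =
          ((k * f : ℕ) : ℚ) * Z - (1 + 2 * t) * ((k * f : ℕ) : ℚ) := by
        field_simp
      linarith
    have h9 : (((k * f - m : ℕ) : ℚ)) * ((2 ^ (2 ^ L) : ℕ) : ℚ) ≤
        (((1 + 2 * t) * (k * f) : ℕ) : ℚ) := by
      rw [Nat.cast_sub hn1.le]
      push_cast at h6 ⊢
      rw [hZdef] at h6
      exact h6
    exact_mod_cast h9
  obtain ⟨τ', hτ'⟩ : ∃ τ', τ' = ∏ p ∈ T0, (p - 1) := ⟨_, rfl⟩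
  obtain ⟨τ, hτ⟩ : ∃ τ, τ = ∏ p ∈ T0, p := ⟨_, rfl⟩
  have star' : ∀ L, L0 ≤ L → ∀ KL, KL = (range L).filter (fun i => ∀ᶠ n in (U : Filter ℕ),
      i ∈ KK n) → pF KL * τ + 1 ≤ k * (pW KL * τ') ∧
      (k * (pW KL * τ') - pF KL * τ) * 2 ^ (2 ^ L) ≤ (1 + 2 * t) * (k * (pW KL * τ')) ∧
      (∃ n, 3 ≤ n ∧ Nat.totient n ∣ n + 1 ∧ pF KL * τ ∣ n ∧ pW KL * τ' ∣ Nat.totient n) := by
    intro L hL KL hKL
    subst hKL
    rw [hτ, hτ']
    exact star L hL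
  obtain ⟨C, hC⟩ : ∃ C, C = (1 + 2 * t) * (k * τ') := ⟨_, rfl⟩
  -- all large indices occur
  have step1 : ∀ g, L0 + C ≤ g → ∀ᶠ n in (U : Filter ℕ), g ∈ KK n := by
    intro g hg
    by_contra hgn
    have e : (range (g + 1)).filter (fun i => ∀ᶠ n in (U : Filter ℕ), i ∈ KK n) =
        (range g).filter (fun i => ∀ᶠ n in (U : Filter ℕ), i ∈ KK n) := by
      rw [Finset.range_add_one, filter_insert, if_neg hgn]
    obtain ⟨s1, s2, -⟩ := star' (g + 1) (by omega) _ e.symm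
    obtain ⟨KL, hKL⟩ : ∃ KL, KL = (range g).filter (fun i => ∀ᶠ n in (U : Filter ℕ), i ∈ KK n) :=
      ⟨_, rfl⟩
    rw [← hKL] at s1 s2
    have h1 : pW KL ≤ pW (range g) := by
      rw [hKL]
      exact prod_le_prod_of_subset_of_one_le' (filter_subset _ _)
        fun i _ _ => Nat.one_le_two_pow
    have h2 := pW_range g
    obtain ⟨G, hG⟩ : ∃ G, G = 2 ^ (2 ^ g) := ⟨_, rfl⟩
    have h3 : 2 ^ (2 ^ (g + 1)) = G * G := by rw [hG, pow_succ, pow_mul, pow_two]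
    rw [← hG] at h2
    rw [h3] at s2
    have h4 : 1 ≤ k * (pW KL * τ') - pF KL * τ := by omega
    have h5 : 1 * (G * G) ≤ (1 + 2 * t) * (k * (pW KL * τ')) :=
      (Nat.mul_le_mul_right _ h4).trans s2
    have h6 : 2 * ((1 + 2 * t) * (k * (pW KL * τ'))) ≤ C * G := by
      calc 2 * ((1 + 2 * t) * (k * (pW KL * τ'))) = C * (2 * pW KL) := by rw [hC]; ring
        _ ≤ C * (2 * pW (range g)) := Nat.mul_le_mul_left _ (by omega)
        _ = C * G := by rw [h2]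
    have h7 : 2 * G * G ≤ C * G := by
      calc 2 * G * G = 2 * (1 * (G * G)) := by ring
        _ ≤ 2 * ((1 + 2 * t) * (k * (pW KL * τ'))) := Nat.mul_le_mul_left _ h5
        _ ≤ C * G := h6
    have hGg : g < G := by rw [hG]; exact hlt2 g
    have h8 : 2 * G ≤ C := Nat.le_of_mul_le_mul_right h7 (by omega)
    omega
  obtain ⟨i0, hi0⟩ : ∃ i0, i0 = L0 + C := ⟨_, rfl⟩
  obtain ⟨K0, hK0⟩ : ∃ K0, K0 = (range i0).filter (fun i => ∀ᶠ n in (U : Filter ℕ), i ∈ KK n) :=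
    ⟨_, rfl⟩
  have hsplit : ∀ L, i0 ≤ L → (range L).filter (fun i => ∀ᶠ n in (U : Filter ℕ), i ∈ KK n) =
      K0 ∪ Ico i0 L := by
    intro L hL
    ext i
    rw [hK0, Finset.mem_union, Finset.mem_filter, Finset.mem_filter, Finset.mem_range,
      Finset.mem_range, Finset.mem_Ico]
    constructor
    · rintro ⟨h1, h2⟩
      by_cases h3 : i < i0
      · exact Or.inl ⟨h3, h2⟩
      · exact Or.inr ⟨by omega, h1⟩
    · rintro (⟨h1, h2⟩ | ⟨h1, h2⟩)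
      · exact ⟨by omega, h2⟩
      · exact ⟨h2, step1 i (by omega)⟩
  have hdis : ∀ L, Disjoint K0 (Ico i0 L) := by
    intro L
    rw [Finset.disjoint_left]
    intro i hi hi'
    rw [hK0, Finset.mem_filter, Finset.mem_range] at hi
    rw [Finset.mem_Ico] at hi'
    omega
  obtain ⟨G, hG⟩ : ∃ G : ℕ, G = 2 ^ (2 ^ i0) := ⟨_, rfl⟩
  have hG2 : 2 ≤ G := by
    rw [hG]
    calc 2 = 2 ^ 1 := rfl
      _ ≤ 2 ^ (2 ^ i0) := Nat.pow_le_pow_right (by norm_num) Nat.one_le_two_pow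
  obtain ⟨m0, hm0⟩ : ∃ m0, m0 = pF K0 * τ := ⟨_, rfl⟩
  obtain ⟨f0, hf0⟩ : ∃ f0, f0 = pW K0 * τ' := ⟨_, rfl⟩
  obtain ⟨E, hE⟩ : ∃ E : ℤ, E = (k : ℤ) * f0 * ((G : ℤ) - 1) - m0 * G := ⟨_, rfl⟩
  have step2 : ∀ L, i0 ≤ L → 0 < ((2 ^ (2 ^ L) : ℕ) : ℤ) * E + m0 * G ∧
      ((2 ^ (2 ^ L) : ℕ) : ℤ) * E + m0 * G ≤ (1 + 2 * t) * (k * f0) * ((G : ℤ) - 1) := by
    intro L hL
    obtain ⟨s1, s2, -⟩ := star' L (by omega) (K0 ∪ Ico i0 L) (hsplit L hL).symm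
    have u1 : pF (K0 ∪ Ico i0 L) = pF K0 * pF (Ico i0 L) := prod_union (hdis L)
    have u2 : pW (K0 ∪ Ico i0 L) = pW K0 * pW (Ico i0 L) := prod_union (hdis L)
    obtain ⟨p1, p2⟩ := prod_Ico hL
    obtain ⟨a, ha⟩ : ∃ a, a = pF (Ico i0 L) := ⟨_, rfl⟩
    obtain ⟨b, hb⟩ : ∃ b, b = pW (Ico i0 L) := ⟨_, rfl⟩
    obtain ⟨Z, hZ⟩ : ∃ Z : ℕ, Z = 2 ^ (2 ^ L) := ⟨_, rfl⟩
    have hZ1 : 1 ≤ Z := by rw [hZ]; exact Nat.one_le_two_pow
    rw [u1, u2, ← ha, ← hb] at s1 s2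
    rw [← hZ] at s2 ⊢
    rw [← ha, ← hG, ← hZ] at p1
    rw [← hb, ← hG, ← hZ] at p2
    have hG' : (2 : ℤ) ≤ G := by exact_mod_cast hG2
    have p1' : (a : ℤ) * ((G : ℤ) - 1) = Z - 1 := by
      have : ((a * (G - 1) : ℕ) : ℤ) = ((Z - 1 : ℕ) : ℤ) := by rw [p1]
      rw [Nat.cast_mul, Nat.cast_sub (by omega), Nat.cast_sub hZ1] at this
      exact_mod_cast this
    have p2' : (b : ℤ) * G = Z := by exact_mod_cast p2
    have w1 : pF K0 * a * τ = m0 * a := by rw [hm0]; ring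
    have w2 : pW K0 * b * τ' = f0 * b := by rw [hf0]; ring
    rw [w1, w2] at s1 s2
    obtain ⟨D, hD⟩ : ∃ D : ℕ, k * (f0 * b) = D + m0 * a := ⟨k * (f0 * b) - m0 * a, by omega⟩
    have hD1 : 1 ≤ D := by omega
    have hD2 : k * (f0 * b) - m0 * a = D := by omega
    rw [hD2] at s2
    have s2' : (D : ℤ) * Z ≤ (1 + 2 * t) * (k * (f0 * b)) := by exact_mod_cast s2
    have hD' : (k : ℤ) * (f0 * b) = D + m0 * a := by exact_mod_cast hD
    have hD1' : (1 : ℤ) ≤ D := by exact_mod_cast hD1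
    have hZ1' : (1 : ℤ) ≤ Z := by exact_mod_cast hZ1
    have e1 : (Z : ℤ) * E + m0 * G = D * (G * (G - 1)) := by
      rw [hE]
      linear_combination (-(k : ℤ) * f0 * (G - 1)) * p2' + (G * (G - 1) : ℤ) * hD' +
        ((m0 : ℤ) * G) * p1'
    have e2 : (D : ℤ) * G ≤ (1 + 2 * t) * (k * f0) := by
      have h1 : (D : ℤ) * G * Z ≤ (1 + 2 * t) * (k * f0) * Z := by
        have h2 := mul_le_mul_of_nonneg_right s2' (by linarith : (0 : ℤ) ≤ G)
        calc (D : ℤ) * G * Z = D * Z * G := by ring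
          _ ≤ (1 + 2 * t) * (k * (f0 * b)) * G := h2
          _ = (1 + 2 * t) * (k * f0) * (b * G) := by ring
          _ = _ := by rw [p2']
      exact le_of_mul_le_mul_right h1 (by linarith)
    rw [e1]
    constructor
    · have : (0 : ℤ) < G - 1 := by linarith
      positivity
    · calc (D : ℤ) * (G * (G - 1)) = D * G * (G - 1) := by ring
        _ ≤ _ := mul_le_mul_of_nonneg_right e2 (by linarith)
  have hE0 : E = 0 := by
    obtain ⟨B, hB⟩ : ∃ B : ℕ, ((1 + 2 * t) * (k * f0) * ((G : ℤ) - 1)) + m0 * G ≤ B ∧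
        (m0 * G : ℤ) ≤ B := by
      refine ⟨(((1 + 2 * t) * (k * f0) * ((G : ℤ) - 1)) + m0 * G).toNat + (m0 * G), ?_, ?_⟩
      · have := Int.self_le_toNat (((1 + 2 * t) * (k * f0) * ((G : ℤ) - 1)) + m0 * G)
        push_cast
        have h0 : (0 : ℤ) ≤ m0 * G := by positivity
        linarith
      · push_cast
        have h0 : (0 : ℤ) ≤ ((((1 + 2 * t) * (k * f0) * ((G : ℤ) - 1)) + m0 * G).toNat : ℤ) := by
          positivity
        linarith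
    obtain ⟨h1, h2⟩ := step2 (i0 + B) (by omega)
    have h3 : B < 2 ^ (2 ^ (i0 + B)) := lt_of_le_of_lt (by omega) (hlt2 (i0 + B))
    obtain ⟨Z, hZ⟩ : ∃ Z : ℕ, Z = 2 ^ (2 ^ (i0 + B)) := ⟨_, rfl⟩
    rw [← hZ] at h1 h2 h3
    have h3' : (B : ℤ) < Z := by exact_mod_cast h3
    have hm0G : (0 : ℤ) ≤ m0 * G := by positivity
    have hZ0 : (0 : ℤ) ≤ Z := by positivity
    rcases lt_trichotomy E 0 with h4 | h4 | h4
    · exfalso
      have : (Z : ℤ) * E ≤ Z * (-1) := mul_le_mul_of_nonneg_left (by omega) hZ0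
      linarith [hB.2]
    · exact h4
    · exfalso
      have : (Z : ℤ) * 1 ≤ Z * E := mul_le_mul_of_nonneg_left (by omega) hZ0
      linarith [hB.1]
  -- the exact equation
  have hex : k * f0 * (G - 1) = m0 * G := by
    have h1 : (k : ℤ) * f0 * ((G : ℤ) - 1) = m0 * G := by linarith
    have h2 : ((k * f0 * (G - 1) : ℕ) : ℤ) = ((m0 * G : ℕ) : ℤ) := by
      rw [Nat.cast_mul, Nat.cast_sub (by omega)]
      push_cast
      exact h1
    exact_mod_cast h2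
  obtain ⟨-, -, n, hn3, hn, hmn, hfn⟩ := star' i0 (by omega) K0 hK0
  rw [← hm0] at hmn
  rw [← hf0] at hfn
  have hcop : Nat.Coprime f0 m0 := by
    rw [Nat.coprime_iff_gcd_eq_one, ← Nat.dvd_one]
    have h1 : Nat.gcd f0 m0 ∣ n := (Nat.gcd_dvd_right _ _).trans hmn
    have h2 : Nat.gcd f0 m0 ∣ n + 1 := ((Nat.gcd_dvd_left _ _).trans hfn).trans hn
    exact (Nat.dvd_add_right h1).1 h2
  have hfG : f0 ∣ G := by
    refine hcop.dvd_of_dvd_mul_left ?_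
    rw [← hex, mul_assoc, mul_comm, mul_assoc]
    exact dvd_mul_right _ _
  have hT00 : T0 = ∅ := by
    by_contra hT
    obtain ⟨p, hp⟩ := Finset.nonempty_iff_ne_empty.2 hT
    obtain ⟨n', hn1, hn2⟩ := (((hT0 p).1 hp).and hX).exists
    obtain ⟨hp1, -, hp7, -, hpF⟩ := T_mem hn2.1 hn2.2.1 hn1
    have h1 : p - 1 ∣ τ' := by rw [hτ']; exact dvd_prod_of_mem (fun p => p - 1) hp
    have h2 : p - 1 ∣ 2 ^ (2 ^ i0) := by
      rw [← hG]
      exact (h1.trans (by rw [hf0]; exact dvd_mul_left _ _)).trans hfG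
    obtain ⟨e, -, he⟩ := (Nat.dvd_prime_pow Nat.prime_two).1 h2
    have he0 : e ≠ 0 := by rintro rfl; norm_num at he; omega
    have h3 : p = 2 ^ e + 1 := by omega
    rw [h3] at hp1
    obtain ⟨l, hl⟩ := Nat.pow_of_pow_add_prime (by norm_num) he0 hp1
    apply hpF l
    rw [h3, hl]; rfl
  have hτ1 : τ = 1 := by rw [hτ, hT00]; simp
  have hGm : G - 1 ∣ m0 := by
    have h1 : Nat.Coprime (G - 1) G := by
      have h2 : G = (G - 1) + 1 := by omega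
      conv_rhs => rw [h2]
      simp
    exact h1.dvd_of_dvd_mul_right ⟨k * f0, by rw [← hex]; ring⟩
  have h5 : Nat.fermatNumber 5 ∣ G - 1 := by
    have h1 := pF_range i0
    have h2 : pF (range i0) = G - 1 := by rw [hG]; omega
    rw [← h2]
    exact dvd_prod_of_mem Nat.fermatNumber (Finset.mem_range.2 (by omega))
  have h6 : Nat.Coprime (Nat.fermatNumber 5) m0 := by
    rw [hm0, hτ1, mul_one]
    refine Nat.Coprime.prod_right fun i hi => ?_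
    refine Nat.coprime_fermatNumber_fermatNumber ?_
    rintro rfl
    rw [hK0, Finset.mem_filter] at hi
    obtain ⟨n', hn'⟩ := hi.2.exists
    exact fermat_not_prime (le_refl 5) (by norm_num) (Nat.prime_of_mem_primeFactors (mem_KK.1 hn'))
  have h7 : Nat.fermatNumber 5 ∣ 1 := by
    have h8 := h5.trans hGm
    have h9 := Nat.dvd_gcd (dvd_refl (Nat.fermatNumber 5)) h8
    rwa [Nat.coprime_iff_gcd_eq_one.1 h6] at h9
  have h10 := Nat.three_le_fermatNumber 5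
  have h11 := Nat.le_of_dvd (by norm_num) h7
  omega

end Pool.Agent.Work.MP_cb106b_nt.FP
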