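import Pool.Agent.Work.MP_cb106b_nt.Class

/-!
# Solutions for which `φ(n)` has at most one odd prime factor: sums and composite Fermat numbers
-/

set_option autoImplicit false

namespace Pool.Agent.Work.MP_cb106b_nt.FP

open Finset

theorem geom1 {c : ℚ} (hc : 2 ≤ c) (X : ℕ) :
    ∑ x ∈ range X, (1 / c) ^ (x + 1) ≤ 1 / (c - 1) := by
  have hct : c * (1 / c) = 1 := by
    have h2 : c ≠ 0 := by linarith
    field_simp
  have h : (∑ x ∈ range X, (1 / c) ^ (x + 1)) * (c - 1) = 1 - (1 / c) ^ X := by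
    induction X with
    | zero => simp
    | succ X ih =>
      rw [sum_range_succ, add_mul, ih, pow_succ]
      linear_combination ((1 / c) ^ X) * hct
  have h1 : 0 < c - 1 := by linarith
  rw [le_div_iff₀ h1, h]
  have : 0 ≤ (1 / c) ^ X := by positivity
  linarith

/-- Sum of the reciprocals of numbers `c ^ x * q ^ y`. -/
theorem geo {c q : ℕ} (hc : 2 ≤ c) (hq : 2 ≤ q) (U : Finset ℕ)
    (hU : ∀ u ∈ U, ∃ x y : ℕ, u = c ^ (x + 1) * q ^ (y + 1)) :
    ∑ u ∈ U, (1 : ℚ) / u ≤ 1 / (((c : ℚ) - 1) * ((q : ℚ) - 1)) := by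
  classical
  choose! f g hfg using hU
  have hcQ : (2 : ℚ) ≤ c := by exact_mod_cast hc
  have hqQ : (2 : ℚ) ≤ q := by exact_mod_cast hq
  have hinj : Set.InjOn (fun u => (f u, g u)) (U : Set ℕ) := by
    intro u hu v hv h
    simp only [Prod.mk.injEq] at h
    rw [hfg u hu, hfg v hv, h.1, h.2]
  have e1 : ∑ u ∈ U, (1 : ℚ) / u =
      ∑ d ∈ U.image (fun u => (f u, g u)), ((1 / (c : ℚ)) ^ (d.1 + 1) * (1 / (q : ℚ)) ^ (d.2 + 1)) := by
    rw [sum_image hinj]
    refine sum_congr rfl fun u hu => ?_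
    have := hfg u hu
    have h2 : (u : ℚ) = (c : ℚ) ^ (f u + 1) * (q : ℚ) ^ (g u + 1) := by exact_mod_cast this
    rw [h2, one_div, mul_inv, one_div, one_div, inv_pow, inv_pow]
  obtain ⟨X, hX⟩ := (U.image f).exists_nat_subset_range
  obtain ⟨Y, hY⟩ := (U.image g).exists_nat_subset_range
  have hsub : U.image (fun u => (f u, g u)) ⊆ range X ×ˢ range Y := by
    intro d hd
    obtain ⟨u, hu, rfl⟩ := mem_image.1 hd
    rw [mem_product]
    exact ⟨hX (mem_image_of_mem f hu), hY (mem_image_of_mem g hu)⟩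
  rw [e1]
  refine (sum_le_sum_of_subset_of_nonneg hsub fun d _ _ => by positivity).trans ?_
  have e3 : ∑ i ∈ range X ×ˢ range Y, (1 / (c : ℚ)) ^ (i.1 + 1) * (1 / (q : ℚ)) ^ (i.2 + 1) =
      (∑ x ∈ range X, (1 / (c : ℚ)) ^ (x + 1)) * ∑ y ∈ range Y, (1 / (q : ℚ)) ^ (y + 1) := by
    rw [sum_mul_sum, sum_product]
  rw [e3]
  have h1 := geom1 hcQ X
  have h2 := geom1 hqQ Y
  have h3 : 0 ≤ ∑ y ∈ range Y, (1 / (q : ℚ)) ^ (y + 1) := sum_nonneg fun _ _ => by positivity
  have h4 : 0 < (c : ℚ) - 1 := by linarith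
  calc _ ≤ 1 / ((c : ℚ) - 1) * (1 / ((q : ℚ) - 1)) :=
      mul_le_mul h1 h2 h3 (by positivity)
    _ = _ := by rw [one_div_mul_one_div]

/-- `Π (1 + x) (1 - Σ x) ≤ 1`. -/
theorem prod_le {ι : Type} (T : Finset ι) (x : ι → ℚ) (hx : ∀ i ∈ T, 0 ≤ x i) :
    (∏ i ∈ T, (1 + x i)) * (1 - ∑ i ∈ T, x i) ≤ 1 := by
  classical
  induction T using Finset.induction_on with
  | empty => simp
  | insert a T ha ih =>
    rw [prod_insert ha, sum_insert ha]
    have h0 := hx a (mem_insert_self a T)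
    have h1 : ∀ i ∈ T, 0 ≤ x i := fun i hi => hx i (mem_insert_of_mem hi)
    have h2 := ih h1
    have h3 : 0 ≤ ∏ i ∈ T, (1 + x i) := prod_nonneg fun i hi => by have := h1 i hi; linarith
    have h4 : 0 ≤ ∑ i ∈ T, x i := sum_nonneg h1
    have h5 : (1 + x a) * (1 - (x a + ∑ i ∈ T, x i)) ≤ 1 - ∑ i ∈ T, x i := by nlinarith
    calc ((1 + x a) * ∏ i ∈ T, (1 + x i)) * (1 - (x a + ∑ i ∈ T, x i)) =
        (∏ i ∈ T, (1 + x i)) * ((1 + x a) * (1 - (x a + ∑ i ∈ T, x i))) := by ring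
      _ ≤ (∏ i ∈ T, (1 + x i)) * (1 - ∑ i ∈ T, x i) := mul_le_mul_of_nonneg_left h5 h3
      _ ≤ 1 := h2

/-- Comparison of `Π p` and `Π (p - 1)`. -/
theorem prod_cmp {T : Finset ℕ} (hT : ∀ p ∈ T, 2 ≤ p) {σ : ℚ}
    (hσ : ∑ p ∈ T, (1 : ℚ) / ((p - 1 : ℕ) : ℚ) ≤ σ) :
    ((∏ p ∈ T, p : ℕ) : ℚ) * (1 - σ) ≤ ((∏ p ∈ T, (p - 1) : ℕ) : ℚ) := by
  have h1 := prod_le T (fun p => (1 : ℚ) / ((p - 1 : ℕ) : ℚ)) (fun p _ => by positivity)
  have hP : (0 : ℚ) < ((∏ p ∈ T, (p - 1) : ℕ) : ℚ) := by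
    have : 0 < ∏ p ∈ T, (p - 1) := prod_pos fun p hp => by have := hT p hp; omega
    exact_mod_cast this
  have e1 : ((∏ p ∈ T, p : ℕ) : ℚ) = ((∏ p ∈ T, (p - 1) : ℕ) : ℚ) *
      ∏ p ∈ T, (1 + (1 : ℚ) / ((p - 1 : ℕ) : ℚ)) := by
    push_cast
    rw [← prod_mul_distrib]
    refine prod_congr rfl fun p hp => ?_
    have h2 := hT p hp
    have h3 : ((p - 1 : ℕ) : ℚ) ≠ 0 := by
      have : p - 1 ≠ 0 := by omega
      exact_mod_cast this
    have h4 : (p : ℚ) = ((p - 1 : ℕ) : ℚ) + 1 := by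
      have : p = (p - 1) + 1 := by omega
      exact_mod_cast this
    field_simp
    linarith
  have hX : (0 : ℚ) ≤ ∏ p ∈ T, (1 + (1 : ℚ) / ((p - 1 : ℕ) : ℚ)) :=
    prod_nonneg fun p _ => by positivity
  rw [e1]
  have h5 : (∏ p ∈ T, (1 + (1 : ℚ) / ((p - 1 : ℕ) : ℚ))) * (1 - σ) ≤ 1 :=
    (mul_le_mul_of_nonneg_left (by linarith) hX).trans h1
  nlinarith

theorem dvd_fermat {k p : ℕ} (h : (2 : ZMod p) ^ (2 ^ k) + 1 = 0) : p ∣ Nat.fermatNumber k := by
  rw [← ZMod.natCast_eq_zero_iff]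
  unfold Nat.fermatNumber
  push_cast
  exact h

/-- The Fermat numbers `F_5, ..., F_19` are not prime. -/
theorem fermat_not_prime {k : ℕ} (h5 : 5 ≤ k) (h19 : k ≤ 19) : ¬ (Nat.fermatNumber k).Prime := by
  have key : ∀ p e : ℕ, p ∣ Nat.fermatNumber k → 2 ≤ p → p ≤ 2 ^ e → e ≤ 2 ^ k →
      ¬ (Nat.fermatNumber k).Prime := by
    intro p e hd h2 hpe hek
    refine Nat.not_prime_of_dvd_of_lt hd h2 ?_
    have : 2 ^ e ≤ 2 ^ (2 ^ k) := Nat.pow_le_pow_right (by norm_num) hek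
    unfold Nat.fermatNumber
    omega
  interval_cases k
  · exact key 641 10 (dvd_fermat (by norm_num1; reduce_mod_char)) (by norm_num) (by norm_num)
      (by norm_num)
  · exact key 274177 20 (dvd_fermat (by norm_num1; reduce_mod_char)) (by norm_num) (by norm_num)
      (by norm_num)
  · exact key 59649589127497217 60 (dvd_fermat (by norm_num1; reduce_mod_char)) (by norm_num)
      (by norm_num) (by norm_num)
  · exact key 1238926361552897 60 (dvd_fermat (by norm_num1; reduce_mod_char)) (by norm_num)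
      (by norm_num) (by norm_num)
  · exact key 2424833 60 (dvd_fermat (by norm_num1; reduce_mod_char)) (by norm_num)
      (by norm_num) (by norm_num)
  · exact key 45592577 60 (dvd_fermat (by norm_num1; reduce_mod_char)) (by norm_num)
      (by norm_num) (by norm_num)
  · exact key 319489 60 (dvd_fermat (by norm_num1; reduce_mod_char)) (by norm_num)
      (by norm_num) (by norm_num)
  · exact key 114689 60 (dvd_fermat (by norm_num1; reduce_mod_char)) (by norm_num)
      (by norm_num) (by norm_num)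
  · exact key 2710954639361 60 (dvd_fermat (by norm_num1; reduce_mod_char)) (by norm_num)
      (by norm_num) (by norm_num)
  · exact key 116928085873074369829035993834596371340386703423373313 200
      (dvd_fermat (by norm_num1; reduce_mod_char)) (by norm_num) (by norm_num) (by norm_num)
  · exact key 1214251009 60 (dvd_fermat (by norm_num1; reduce_mod_char)) (by norm_num)
      (by norm_num) (by norm_num)
  · exact key 825753601 60 (dvd_fermat (by norm_num1; reduce_mod_char)) (by norm_num)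
      (by norm_num) (by norm_num)
  · exact key 31065037602817 60 (dvd_fermat (by norm_num1; reduce_mod_char)) (by norm_num)
      (by norm_num) (by norm_num)
  · exact key 13631489 60 (dvd_fermat (by norm_num1; reduce_mod_char)) (by norm_num)
      (by norm_num) (by norm_num)
  · exact key 70525124609 60 (dvd_fermat (by norm_num1; reduce_mod_char)) (by norm_num)
      (by norm_num) (by norm_num)

end Pool.Agent.Work.MP_cb106b_nt.FP
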