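import Mathlib

set_option autoImplicit false

namespace Pool.Agent.Work.MP_cb106b_nt.FP

theorem gold_ne (c : ℕ) (h1 : c ≠ 1) (h2 : c < 18446744069414584321) :
    (c : ZMod 18446744069414584321) ≠ 1 := by
  intro h
  have h3 : ((c : ℕ) : ZMod 18446744069414584321) = ((1 : ℕ) : ZMod 18446744069414584321) := by
    rw [h]; simp
  rw [ZMod.natCast_eq_natCast_iff'] at h3
  rw [Nat.mod_eq_of_lt h2] at h3
  exact h1 (h3.trans (by norm_num))

theorem prime_gold : Nat.Prime 18446744069414584321 := by
  have hfac : ∀ q : ℕ, q.Prime → q ∣ 18446744069414584321 - 1 →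
      q = 2 ∨ q = 3 ∨ q = 5 ∨ q = 17 ∨ q = 257 ∨ q = 65537 := by
    intro q hq hd
    have h1 : 18446744069414584321 - 1 = 2 ^ 32 * 3 * 5 * 17 * 257 * 65537 := by norm_num
    rw [h1] at hd
    rcases (Nat.Prime.dvd_mul hq).1 hd with hd | hd
    rcases (Nat.Prime.dvd_mul hq).1 hd with hd | hd
    rcases (Nat.Prime.dvd_mul hq).1 hd with hd | hd
    rcases (Nat.Prime.dvd_mul hq).1 hd with hd | hd
    rcases (Nat.Prime.dvd_mul hq).1 hd with hd | hd
    · left; exact (Nat.prime_dvd_prime_iff_eq hq Nat.prime_two).1 (hq.dvd_of_dvd_pow hd)
    · right; left; exact (Nat.prime_dvd_prime_iff_eq hq Nat.prime_three).1 hd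
    · right; right; left; exact (Nat.prime_dvd_prime_iff_eq hq Nat.prime_five).1 hd
    · right; right; right; left; exact (Nat.prime_dvd_prime_iff_eq hq (by norm_num)).1 hd
    · right; right; right; right; left; exact (Nat.prime_dvd_prime_iff_eq hq (by norm_num)).1 hd
    · right; right; right; right; right; exact (Nat.prime_dvd_prime_iff_eq hq (by norm_num)).1 hd
  refine lucas_primality _ (7 : ZMod 18446744069414584321) ?_ ?_
  · have h1 : 18446744069414584321 - 1 = 18446744069414584320 := by norm_num
    rw [h1]
    reduce_mod_char
  · intro q hq hd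
    rcases hfac q hq hd with rfl | rfl | rfl | rfl | rfl | rfl
    · have h1 : (18446744069414584321 - 1) / 2 = 9223372034707292160 := by norm_num
      have h2 : (7 : ZMod 18446744069414584321) ^ 9223372034707292160 = ((18446744069414584320 : ℕ) :
          ZMod 18446744069414584321) := by
        reduce_mod_char
      rw [h1, h2]
      exact gold_ne _ (by norm_num) (by norm_num)
    · have h1 : (18446744069414584321 - 1) / 3 = 6148914689804861440 := by norm_num
      have h2 : (7 : ZMod 18446744069414584321) ^ 6148914689804861440 = ((18446744065119617025 : ℕ) :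
          ZMod 18446744069414584321) := by
        reduce_mod_char
      rw [h1, h2]
      exact gold_ne _ (by norm_num) (by norm_num)
    · have h1 : (18446744069414584321 - 1) / 5 = 3689348813882916864 := by norm_num
      have h2 : (7 : ZMod 18446744069414584321) ^ 3689348813882916864 = ((1373043270956696022 : ℕ) :
          ZMod 18446744069414584321) := by
        reduce_mod_char
      rw [h1, h2]
      exact gold_ne _ (by norm_num) (by norm_num)
    · have h1 : (18446744069414584321 - 1) / 17 = 1085102592318504960 := by norm_num
      have h2 : (7 : ZMod 18446744069414584321) ^ 1085102592318504960 = ((16301593560560007290 : ℕ) :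
          ZMod 18446744069414584321) := by
        reduce_mod_char
      rw [h1, h2]
      exact gold_ne _ (by norm_num) (by norm_num)
    · have h1 : (18446744069414584321 - 1) / 257 = 71777214277877760 := by norm_num
      have h2 : (7 : ZMod 18446744069414584321) ^ 71777214277877760 = ((995085315851368103 : ℕ) :
          ZMod 18446744069414584321) := by
        reduce_mod_char
      rw [h1, h2]
      exact gold_ne _ (by norm_num) (by norm_num)
    · have h1 : (18446744069414584321 - 1) / 65537 = 281470681743360 := by norm_num
      have h2 : (7 : ZMod 18446744069414584321) ^ 281470681743360 = ((8478886009461009681 : ℕ) :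
          ZMod 18446744069414584321) := by
        reduce_mod_char
      rw [h1, h2]
      exact gold_ne _ (by norm_num) (by norm_num)

end Pool.Agent.Work.MP_cb106b_nt.FP
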