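import Pool.Agent.Work.MP_cb106b_nt.Geo

/-!
# Solutions for which `φ(n)` has at most one odd prime factor
-/

set_option autoImplicit false

namespace Pool.Agent.Work.MP_cb106b_nt.FP

open Finset

theorem two_pow_form {m q : ℕ} (hm : m ≠ 0) (hq : q.Prime)
    (h : ∀ r : ℕ, r.Prime → r ∣ m → r = 2 ∨ r = q) : ∃ a b : ℕ, m = 2 ^ a * q ^ b := by
  obtain ⟨a, m', hm', rfl⟩ := Nat.exists_eq_pow_mul_and_not_dvd hm 2 (by norm_num)
  have hm0 : m' ≠ 0 := by rintro rfl; simp at hm
  obtain ⟨b, m'', hm'', rfl⟩ := Nat.exists_eq_pow_mul_and_not_dvd hm0 q hq.ne_one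
  refine ⟨a, b, ?_⟩
  have : m'' = 1 := by
    by_contra h1
    obtain ⟨r, hr, hrd⟩ := Nat.exists_prime_and_dvd h1
    rcases h r hr ((hrd.mul_left _).mul_left _) with rfl | rfl
    · exact hm' (hrd.mul_left _)
    · exact hm'' hrd
  rw [this, mul_one]

theorem T_form {n q p : ℕ} (hn : 3 ≤ n) (h : Nat.totient n ∣ n + 1) (hq : q.Prime) (hq2 : q ≠ 2)
    (hφ : ∀ r : ℕ, r.Prime → r ∣ Nat.totient n → r = 2 ∨ r = q) (hp : p ∈ TT n) :
    ∃ x y : ℕ, p - 1 = 2 ^ (x + 1) * q ^ (y + 1) := by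
  obtain ⟨hp1, hpn, hp7, hp2, hpF⟩ := T_mem hn h hp
  have hd : p - 1 ∣ Nat.totient n := by
    have := Nat.totient_dvd_of_dvd hpn
    rwa [Nat.totient_prime hp1] at this
  obtain ⟨a, b, hab⟩ := two_pow_form (m := p - 1) (by omega) hq
    (fun r hr hrd => hφ r hr (hrd.trans hd))
  have ha : a ≠ 0 := by
    rintro rfl
    rw [pow_zero, one_mul] at hab
    have h1 : ¬ 2 ∣ q ^ b := fun hh =>
      hq2 ((Nat.prime_dvd_prime_iff_eq Nat.prime_two hq).1 (Nat.prime_two.dvd_of_dvd_pow hh)).symm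
    rw [← hab] at h1
    omega
  have hb : b ≠ 0 := by
    rintro rfl
    rw [pow_zero, mul_one] at hab
    have h1 : p = 2 ^ a + 1 := by omega
    rw [h1] at hp1
    obtain ⟨k, hk⟩ := Nat.pow_of_pow_add_prime (by norm_num) ha hp1
    apply hpF k
    rw [h1, hk]; rfl
  obtain ⟨x, rfl⟩ := Nat.exists_eq_succ_of_ne_zero ha
  obtain ⟨y, rfl⟩ := Nat.exists_eq_succ_of_ne_zero hb
  exact ⟨x, y, hab⟩

/-- Sum of the reciprocals with exclusions. -/
theorem sumT {c q : ℕ} (hc : 2 ≤ c) (hq : 2 ≤ q) (T Ex : Finset ℕ) (hT2 : ∀ p ∈ T, 2 ≤ p)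
    (hT : ∀ p ∈ T, ∃ x y : ℕ, p - 1 = c ^ (x + 1) * q ^ (y + 1))
    (hEx : ∀ u ∈ Ex, ∃ x y : ℕ, u = c ^ (x + 1) * q ^ (y + 1)) (hd : ∀ p ∈ T, p - 1 ∉ Ex) :
    ∑ p ∈ T, (1 : ℚ) / ((p - 1 : ℕ) : ℚ) ≤
      1 / (((c : ℚ) - 1) * ((q : ℚ) - 1)) - ∑ u ∈ Ex, (1 : ℚ) / u := by
  have h1 := geo hc hq (T.image (fun p => p - 1) ∪ Ex) (by
    intro u hu
    rcases mem_union.1 hu with hu | hu
    · obtain ⟨p, hp, rfl⟩ := mem_image.1 hu
      exact hT p hp
    · exact hEx u hu)
  have hdis : Disjoint (T.image (fun p => p - 1)) Ex := by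
    rw [Finset.disjoint_left]
    intro u hu
    obtain ⟨p, hp, rfl⟩ := mem_image.1 hu
    exact hd p hp
  rw [sum_union hdis, sum_image] at h1
  · linarith
  · intro p hp p' hp' hh
    have h2 := hT2 p hp
    have h3 := hT2 p' hp'
    simp only at hh
    omega

/-- The final size estimate. -/
theorem size_fin {n Q Φ a b φ F W μ : ℚ} (hn : n = a * Q) (hφ : φ = b * Φ) (hnφ : n + 1 = 2 * φ)
    (hF : 0 < F) (hab : F * a < 2 * W * b) (hμ : Q * μ ≤ Φ) (ha : 0 ≤ a) (hΦ : 0 < Φ) :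
    2 * φ * (F * μ - W) < F * μ := by
  have h1 : F * a * (Q * μ) ≤ F * a * Φ := mul_le_mul_of_nonneg_left hμ (by positivity)
  have h2 : F * a * Φ < 2 * W * b * Φ := mul_lt_mul_of_pos_right hab hΦ
  have h3 : F * n * μ < 2 * W * φ := by rw [hn, hφ]; nlinarith
  have h4 : n = 2 * φ - 1 := by linarith
  rw [h4] at h3
  nlinarith

theorem K2 : ∀ K ∈ (range 5).powerset, 0 ∈ K → 1 ∈ K → 2 ∉ K →
    pF K + 1 = 16 ∨ pF K + 1 = 3856 ∨ pF K + 1 = 983056 ∨ pF K + 1 = 252645136 := by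
  decide +kernel

theorem K3 : ∀ K ∈ (range 5).powerset, 0 ∈ K → 1 ∈ K → 2 ∈ K → 3 ∉ K →
    pF K + 1 = 256 ∨ pF K + 1 = 16711936 := by
  decide +kernel

theorem K4 : ∀ K ∈ (range 5).powerset, 0 ∈ K → 1 ∈ K → 2 ∈ K → 3 ∈ K →
    pF K + 1 = 65536 ∨ pF K + 1 = 4294967296 := by
  decide +kernel

theorem oddpart {n q : ℕ} (hn : 3 ≤ n) (h : Nat.totient n ∣ n + 1) (hK5 : ∀ k ∈ KK n, k < 5)
    (hq : q.Prime) (hq2 : q ≠ 2)
    (hφ : ∀ r : ℕ, r.Prime → r ∣ Nat.totient n → r = 2 ∨ r = q) (hqφ : q ∣ Nat.totient n) :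
    False := by
  have hs := sol_sqf hn h
  have e1 := n_eq hs
  have e2 := phi_eq hs (by omega)
  have hm := fun p hp => T_mem (p := p) hn h hp
  have hform := fun p hp => T_form (p := p) hn h hq hq2 hφ hp
  have hqn1 : q ∣ n + 1 := hqφ.trans h
  have hqn : ¬ q ∣ n := fun hh => hq.ne_one (Nat.dvd_one.1 ((Nat.dvd_add_right hh).1 hqn1))
  have hq3 : 3 ≤ q := by have := hq.two_le; omega
  -- three primes
  have hT3 : 3 ≤ (TT n).card := by
    by_contra hlt
    rcases class2 hn h (by omega) with ⟨k, -, -, hk⟩ | hk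
    · have h1 : n + 1 = 2 ^ (2 ^ k) := by
        have : 0 < 2 ^ (2 ^ k) := by positivity
        omega
      rw [h1] at hqn1
      exact hq2 ((Nat.prime_dvd_prime_iff_eq hq Nat.prime_two).1 (hq.dvd_of_dvd_pow hqn1))
    · have h11 : 11 ∣ Nat.totient n := by
        have h1 : 353 ∣ n := by rw [hk]; norm_num
        have h2 := Nat.totient_dvd_of_dvd h1
        rw [Nat.totient_prime (by norm_num)] at h2
        exact (by norm_num : 11 ∣ 353 - 1).trans h2
      have h29 : 29 ∣ Nat.totient n := by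
        have h1 : 929 ∣ n := by rw [hk]; norm_num
        have h2 := Nat.totient_dvd_of_dvd h1
        rw [Nat.totient_prime (by norm_num)] at h2
        exact (by norm_num : 29 ∣ 929 - 1).trans h2
      have h3 := hφ 11 (by norm_num) h11
      have h4 := hφ 29 (by norm_num) h29
      omega
  -- lower bound for `φ`
  have hge : ∀ p ∈ TT n, 2 * q ≤ p - 1 := by
    intro p hp
    obtain ⟨x, y, hxy⟩ := hform p hp
    rw [hxy]
    have h1 : 2 ^ 1 ≤ 2 ^ (x + 1) := Nat.pow_le_pow_right (by norm_num) (by omega)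
    have h2 : q ^ 1 ≤ q ^ (y + 1) := Nat.pow_le_pow_right (by omega) (by omega)
    simpa using Nat.mul_le_mul h1 h2
  have hφlow : (2 * q) ^ 3 ≤ Nat.totient n := by
    rw [e2]
    have h1 : (2 * q) ^ (TT n).card ≤ ∏ p ∈ TT n, (p - 1) := by
      rw [← prod_const]
      exact prod_le_prod' hge
    have h2 : (2 * q) ^ 3 ≤ (2 * q) ^ (TT n).card := Nat.pow_le_pow_right (by omega) hT3
    have h3 := pW_pos (KK n)
    calc (2 * q) ^ 3 ≤ 1 * ∏ p ∈ TT n, (p - 1) := by rw [one_mul]; exact h2.trans h1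
      _ ≤ _ := Nat.mul_le_mul_right _ h3
  have hφ216 : 216 ≤ Nat.totient n := by
    have : 6 ^ 3 ≤ (2 * q) ^ 3 := Nat.pow_le_pow_left (by omega) 3
    omega
  -- rational versions
  obtain ⟨Q, hQ⟩ : ∃ Q : ℚ, Q = ((∏ p ∈ TT n, p : ℕ) : ℚ) := ⟨_, rfl⟩
  obtain ⟨Φ, hΦ⟩ : ∃ Φ : ℚ, Φ = ((∏ p ∈ TT n, (p - 1) : ℕ) : ℚ) := ⟨_, rfl⟩
  have hΦ0 : 0 < Φ := by
    rw [hΦ]
    have : 0 < ∏ p ∈ TT n, (p - 1) := prod_pos fun p hp => by have := hge p hp; omega
    exact_mod_cast this
  have hQ0 : 0 < Q := by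
    rw [hQ]
    have : 0 < ∏ p ∈ TT n, p := prod_pos fun p hp => (hm p hp).1.pos
    exact_mod_cast this
  have e1Q : (n : ℚ) = (pF (KK n) : ℚ) * Q := by
    rw [hQ]; exact_mod_cast e1
  have e2Q : (Nat.totient n : ℚ) = (pW (KK n) : ℚ) * Φ := by
    rw [hΦ]; exact_mod_cast e2
  have hT2 : ∀ p ∈ TT n, 2 ≤ p := fun p hp => (hm p hp).1.two_le
  have hqQ : (3 : ℚ) ≤ q := by exact_mod_cast hq3
  -- crude bound
  have hcrude : Q * (1 - 1 / ((q : ℚ) - 1)) ≤ Φ := by
    rw [hQ, hΦ]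
    refine prod_cmp hT2 ?_
    have h1 := sumT (c := 2) (by norm_num) (by omega) (TT n) ∅ hT2 hform (by simp) (by simp)
    have h2 : (((2 : ℕ) : ℚ) - 1) * ((q : ℚ) - 1) = (q : ℚ) - 1 := by push_cast; ring
    rw [h2, sum_empty, sub_zero] at h1
    exact h1
  have hpF := pF_lt (KK n)
  have hpFQ : (pF (KK n) : ℚ) < 2 * pW (KK n) := by exact_mod_cast hpF
  -- the least missing index
  obtain ⟨j, hj5, hjlt, hjn⟩ := exists_least n
  have hins : (Nat.fermatNumber j : ℚ) * pF (KK n) < 2 * ((2 ^ (2 ^ j) : ℕ) : ℚ) * pW (KK n) := by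
    have h1 := pF_lt (insert j (KK n))
    have h2 : pF (insert j (KK n)) = Nat.fermatNumber j * pF (KK n) := prod_insert hjn
    have h3 : pW (insert j (KK n)) = 2 ^ (2 ^ j) * pW (KK n) := prod_insert hjn
    rw [h2, h3, ← mul_assoc] at h1
    exact_mod_cast h1
  have hφQ : (216 : ℚ) ≤ (Nat.totient n : ℚ) := by exact_mod_cast hφ216
  -- `n + 1 = 2 φ(n)`
  have hmem0 : q = 3 → 0 ∉ KK n := by
    rintro rfl h0
    exact hqn (Nat.dvd_of_mem_primeFactors (mem_KK.1 h0))
  have hmem1 : q = 5 → 1 ∉ KK n := by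
    rintro rfl h0
    exact hqn (Nat.dvd_of_mem_primeFactors (mem_KK.1 h0))
  have hlt3 : (n : ℚ) + 1 < 3 * (Nat.totient n : ℚ) := by
    have hpW0 : (0 : ℚ) < pW (KK n) := by exact_mod_cast pW_pos (KK n)
    by_cases hq3' : q = 3
    · have h0 := hmem0 hq3'
      have h1 := pF_lt (insert 0 (KK n))
      have h2 : pF (insert 0 (KK n)) = 3 * pF (KK n) := prod_insert h0
      have h3 : pW (insert 0 (KK n)) = 2 * pW (KK n) := prod_insert h0
      rw [h2, h3] at h1
      have h4 : 3 * (pF (KK n) : ℚ) < 2 * (2 * pW (KK n)) := by exact_mod_cast h1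
      rw [hq3'] at hcrude
      norm_num at hcrude
      have h5 : 3 * (n : ℚ) < 8 * (Nat.totient n : ℚ) := by
        rw [e1Q, e2Q]
        have h6 : 3 * (pF (KK n) : ℚ) * Q < 2 * (2 * pW (KK n)) * Q :=
          mul_lt_mul_of_pos_right h4 hQ0
        have h7 : (pW (KK n) : ℚ) * (Q * (1 / 2)) ≤ (pW (KK n) : ℚ) * Φ :=
          mul_le_mul_of_nonneg_left (by linarith) hpW0.le
        nlinarith
      linarith
    · have hq5 : (5 : ℚ) ≤ q := by
        have : q ≠ 4 := by rintro rfl; exact absurd hq (by norm_num)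
        have : 5 ≤ q := by omega
        exact_mod_cast this
      have h8 : (3 : ℚ) / 4 ≤ 1 - 1 / ((q : ℚ) - 1) := by
        have : 1 / ((q : ℚ) - 1) ≤ 1 / 4 := one_div_le_one_div_of_le (by norm_num) (by linarith)
        linarith
      have h9 : Q * (3 / 4) ≤ Φ := (mul_le_mul_of_nonneg_left h8 hQ0.le).trans hcrude
      have h5 : 3 * (n : ℚ) < 8 * (Nat.totient n : ℚ) := by
        rw [e1Q, e2Q]
        have h6 : (pF (KK n) : ℚ) * Q < 2 * pW (KK n) * Q := mul_lt_mul_of_pos_right hpFQ hQ0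
        have h7 : (pW (KK n) : ℚ) * (Q * (3 / 4)) ≤ (pW (KK n) : ℚ) * Φ :=
          mul_le_mul_of_nonneg_left h9 hpW0.le
        nlinarith
      linarith
  have hn2 : n + 1 = 2 * Nat.totient n := by
    obtain ⟨k, hk⟩ := h
    have hlt : Nat.totient n < n := Nat.totient_lt n (by omega)
    have h1 : n + 1 < 3 * Nat.totient n := by exact_mod_cast hlt3
    have hk0 : k ≠ 0 := by rintro rfl; omega
    have hk1 : k ≠ 1 := by rintro rfl; omega
    have hk3 : k < 3 := by
      by_contra h3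
      have : Nat.totient n * 3 ≤ Nat.totient n * k := Nat.mul_le_mul_left _ (by omega)
      omega
    have : k = 2 := by omega
    rw [hk, this]; ring
  have hn2Q : (n : ℚ) + 1 = 2 * (Nat.totient n : ℚ) := by exact_mod_cast hn2
  have fin := fun μ hμ => size_fin (μ := μ) e1Q e2Q hn2Q
    (by exact_mod_cast (lt_of_lt_of_le (by norm_num) (Nat.three_le_fermatNumber j) :
      0 < Nat.fermatNumber j)) hins hμ
    (by positivity) hΦ0
  -- the congruence
  have hcong : q ∣ pF (KK n) + 1 := by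
    have h1 : ∏ p ∈ TT n, p ≡ ∏ p ∈ TT n, 1 [MOD q] := by
      refine Nat.ModEq.prod fun p hp => ?_
      obtain ⟨x, y, hxy⟩ := hform p hp
      have h2 : q ∣ p - 1 := by rw [hxy]; exact (dvd_pow_self q (by omega)).mul_left _
      exact ((Nat.modEq_iff_dvd' (hm p hp).1.one_lt.le).2 h2).symm
    rw [prod_const_one] at h1
    have h2 : pF (KK n) * ∏ p ∈ TT n, p + 1 ≡ pF (KK n) * 1 + 1 [MOD q] :=
      (h1.mul_left _).add_right 1
    rw [← e1, mul_one] at h2
    exact (Nat.modEq_zero_iff_dvd).1 (h2.symm.trans ((Nat.modEq_zero_iff_dvd).2 hqn1))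
  have hKp : KK n ∈ (range 5).powerset := by
    rw [mem_powerset]
    intro k hk
    exact mem_range.2 (hK5 k hk)
  have hpow2 : ∀ e : ℕ, ¬ q ∣ 2 ^ e := fun e hh =>
    hq2 ((Nat.prime_dvd_prime_iff_eq hq Nat.prime_two).1 (hq.dvd_of_dvd_pow hh))
  have hpr : ∀ r : ℕ, r.Prime → q ∣ r → q = r := fun r hr hd =>
    (Nat.prime_dvd_prime_iff_eq hq hr).1 hd
  by_cases hq3' : q = 3
  · -- `q = 3`
    have h0 := hmem0 hq3'
    have hj0 : j = 0 := by
      by_contra hj
      exact h0 (hjlt 0 (by omega))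
    subst hq3' hj0
    have hμ : Q * (42984 / 63973) ≤ Φ := by
      obtain ⟨B, hB⟩ : ∃ B : Finset ℕ, B = {7, 13, 19, 37} := ⟨_, rfl⟩
      obtain ⟨T0, hT0⟩ : ∃ T0 : Finset ℕ, T0 = TT n ∩ B := ⟨_, rfl⟩
      obtain ⟨T1, hT1⟩ : ∃ T1 : Finset ℕ, T1 = TT n \ B := ⟨_, rfl⟩
      have f1 : ∏ p ∈ TT n, p = (∏ p ∈ T0, p) * ∏ p ∈ T1, p := by
        rw [hT0, hT1, prod_inter_mul_prod_sdiff]
      have f2 : ∏ p ∈ TT n, (p - 1) = (∏ p ∈ T0, (p - 1)) * ∏ p ∈ T1, (p - 1) := by
        rw [hT0, hT1, prod_inter_mul_prod_sdiff]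
      have hT1s : ∀ p ∈ T1, p ∈ TT n ∧ p ∉ B := by
        intro p hp
        rw [hT1, mem_sdiff] at hp
        exact hp
      have f3 : ((∏ p ∈ T1, p : ℕ) : ℚ) * (1 - 17 / 216) ≤ ((∏ p ∈ T1, (p - 1) : ℕ) : ℚ) := by
        refine prod_cmp (fun p hp => hT2 p (hT1s p hp).1) ?_
        have h1 := sumT (c := 2) (q := 3) (by norm_num) (by norm_num) T1
          {6, 12, 18, 36, 24, 48, 54, 144} (fun p hp => hT2 p (hT1s p hp).1)
          (fun p hp => hform p (hT1s p hp).1) (by
            intro u hu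
            simp only [mem_insert, mem_singleton] at hu
            rcases hu with rfl | rfl | rfl | rfl | rfl | rfl | rfl | rfl
            · exact ⟨0, 0, by norm_num⟩
            · exact ⟨1, 0, by norm_num⟩
            · exact ⟨0, 1, by norm_num⟩
            · exact ⟨1, 1, by norm_num⟩
            · exact ⟨2, 0, by norm_num⟩
            · exact ⟨3, 0, by norm_num⟩
            · exact ⟨0, 2, by norm_num⟩
            · exact ⟨3, 1, by norm_num⟩) (by
            intro p hp hpE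
            obtain ⟨hp1, hp2⟩ := hT1s p hp
            have hpp := (hm p hp1).1
            have hp2' := hpp.two_le
            rw [hB] at hp2
            simp only [mem_insert, mem_singleton, not_or] at hp2 hpE
            have : p = 25 ∨ p = 49 ∨ p = 55 ∨ p = 145 := by omega
            rcases this with rfl | rfl | rfl | rfl <;> exact absurd hpp (by norm_num))
        refine h1.trans (le_of_eq ?_)
        norm_num
      have f4 : ((∏ p ∈ T0, p : ℕ) : ℚ) * (6 * 12 * 18 * 36) ≤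
          ((∏ p ∈ T0, (p - 1) : ℕ) : ℚ) * (7 * 13 * 19 * 37) := by
        have hs0 : T0 ⊆ B := by rw [hT0]; exact inter_subset_right
        have g1 : ∏ p ∈ B, (p - 1) = (∏ p ∈ B \ T0, (p - 1)) * ∏ p ∈ T0, (p - 1) :=
          (prod_sdiff hs0).symm
        have g2 : ∏ p ∈ B, p = (∏ p ∈ B \ T0, p) * ∏ p ∈ T0, p := (prod_sdiff hs0).symm
        have g3 : ∏ p ∈ B \ T0, (p - 1) ≤ ∏ p ∈ B \ T0, p :=
          prod_le_prod' fun p _ => Nat.sub_le p 1
        have g4 : ∏ p ∈ B, (p - 1) = 6 * 12 * 18 * 36 := by rw [hB]; decide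
        have g5 : ∏ p ∈ B, p = 7 * 13 * 19 * 37 := by rw [hB]; decide
        have g6 : (∏ p ∈ T0, p) * (6 * 12 * 18 * 36) ≤
            (∏ p ∈ T0, (p - 1)) * (7 * 13 * 19 * 37) := by
          rw [← g4, ← g5, g1, g2]
          calc (∏ p ∈ T0, p) * ((∏ p ∈ B \ T0, (p - 1)) * ∏ p ∈ T0, (p - 1)) =
              (∏ p ∈ B \ T0, (p - 1)) * ((∏ p ∈ T0, p) * ∏ p ∈ T0, (p - 1)) := by ring
            _ ≤ (∏ p ∈ B \ T0, p) * ((∏ p ∈ T0, p) * ∏ p ∈ T0, (p - 1)) :=
              Nat.mul_le_mul_right _ g3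
            _ = _ := by ring
        exact_mod_cast g6
      rw [hQ, hΦ, f1, f2]
      push_cast at f3 f4 ⊢
      have k1 : (0 : ℚ) ≤ ∏ p ∈ T1, (p : ℚ) := prod_nonneg fun _ _ => by positivity
      have k0 : (0 : ℚ) ≤ ∏ p ∈ T0, ((p - 1 : ℕ) : ℚ) := prod_nonneg fun _ _ => by positivity
      have k2 := mul_le_mul_of_nonneg_right f4 k1
      have k3 := mul_le_mul_of_nonneg_left f3 k0
      nlinarith
    have := fin _ hμ
    rw [Nat.fermatNumber_zero] at this
    norm_num at this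
    linarith
  by_cases hq5' : q = 5
  · -- `q = 5`
    have h0 := hmem1 hq5'
    have hj0 : j ≤ 1 := by
      by_contra hj
      exact h0 (hjlt 1 (by omega))
    subst hq5'
    have hμ : Q * (333 / 400) ≤ Φ := by
      have h2 : ((∏ p ∈ TT n, p : ℕ) : ℚ) * (1 - 67 / 400) ≤ ((∏ p ∈ TT n, (p - 1) : ℕ) : ℚ) := by
        refine prod_cmp hT2 ?_
        have h1 := sumT (c := 2) (q := 5) (by norm_num) (by norm_num) (TT n)
          {20, 50, 80} hT2 hform (by
            intro u hu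
            simp only [mem_insert, mem_singleton] at hu
            rcases hu with rfl | rfl | rfl
            · exact ⟨1, 0, by norm_num⟩
            · exact ⟨0, 1, by norm_num⟩
            · exact ⟨3, 0, by norm_num⟩) (by
            intro p hp hpE
            have hpp := (hm p hp).1
            have hp2' := hpp.two_le
            simp only [mem_insert, mem_singleton] at hpE
            have : p = 21 ∨ p = 51 ∨ p = 81 := by omega
            rcases this with rfl | rfl | rfl <;> exact absurd hpp (by norm_num))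
        refine h1.trans (le_of_eq ?_)
        norm_num
      rw [hQ, hΦ]
      linarith
    have h3 := fin _ hμ
    have hj01 : j = 0 ∨ j = 1 := by omega
    rcases hj01 with rfl | rfl
    · rw [Nat.fermatNumber_zero] at h3
      norm_num at h3
      linarith
    · rw [Nat.fermatNumber_one] at h3
      norm_num at h3
      linarith
  have hq7 : 7 ≤ q := by
    by_contra hlt
    have : q = 4 ∨ q = 6 := by omega
    rcases this with rfl | rfl <;> exact absurd hq (by norm_num)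
  have hq7Q : (7 : ℚ) ≤ q := by exact_mod_cast hq7
  have low : ∀ B : ℚ, 3 ≤ B → B ≤ q → Q * (1 - 1 / (B - 1)) ≤ Φ := by
    intro B hB hBq
    refine le_trans (mul_le_mul_of_nonneg_left ?_ hQ0.le) hcrude
    have : 1 / ((q : ℚ) - 1) ≤ 1 / (B - 1) :=
      one_div_le_one_div_of_le (by linarith) (by linarith)
    linarith
  have big : ∀ B : ℚ, 3 ≤ B → B ≤ q → (19 : ℚ) ≤ B → j ≤ 2 → False := by
    intro B hB hBq hB19 hj
    have h3 := fin _ (low 19 (by norm_num) (by linarith))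
    have hj012 : j = 0 ∨ j = 1 ∨ j = 2 := by omega
    rcases hj012 with rfl | rfl | rfl
    · rw [Nat.fermatNumber_zero] at h3
      norm_num at h3
      linarith
    · rw [Nat.fermatNumber_one] at h3
      norm_num at h3
      linarith
    · rw [Nat.fermatNumber_two] at h3
      norm_num at h3
      linarith
  have hj6 : j = 0 ∨ j = 1 ∨ j = 2 ∨ j = 3 ∨ j = 4 ∨ j = 5 := by omega
  rcases hj6 with rfl | rfl | rfl | rfl | hj | hj
  · have h3 := fin _ (low 7 (by norm_num) hq7Q)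
    rw [Nat.fermatNumber_zero] at h3
    norm_num at h3
    linarith
  · have h3 := fin _ (low 7 (by norm_num) hq7Q)
    rw [Nat.fermatNumber_one] at h3
    norm_num at h3
    linarith
  · have hcase : q = 241 ∨ q = 61441 ∨ q = 15790321 := by
      rcases K2 _ hKp (hjlt 0 (by norm_num)) (hjlt 1 (by norm_num)) hjn with h1 | h1 | h1 | h1
      · rw [h1] at hcong
        exact absurd (by simpa using hcong) (hpow2 4)
      · rw [h1, (by norm_num : 3856 = 2 ^ 4 * 241)] at hcong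
        rcases (Nat.Prime.dvd_mul hq).1 hcong with h2 | h2
        · exact absurd h2 (hpow2 4)
        · exact Or.inl (hpr 241 (by norm_num) h2)
      · rw [h1, (by norm_num : 983056 = 2 ^ 4 * 61441)] at hcong
        rcases (Nat.Prime.dvd_mul hq).1 hcong with h2 | h2
        · exact absurd h2 (hpow2 4)
        · exact Or.inr (Or.inl (hpr 61441 (by norm_num) h2))
      · rw [h1, (by norm_num : 252645136 = 2 ^ 4 * 15790321)] at hcong
        rcases (Nat.Prime.dvd_mul hq).1 hcong with h2 | h2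
        · exact absurd h2 (hpow2 4)
        · exact Or.inr (Or.inr (hpr 15790321 (by norm_num) h2))
    have h19 : (19 : ℚ) ≤ q := by
      have : 19 ≤ q := by omega
      exact_mod_cast this
    exact big 19 (by norm_num) h19 (by norm_num) (by norm_num)
  · have hcase : q = 97 ∨ q = 673 := by
      rcases K3 _ hKp (hjlt 0 (by norm_num)) (hjlt 1 (by norm_num)) (hjlt 2 (by norm_num)) hjn
        with h1 | h1
      · rw [h1, (by norm_num : 256 = 2 ^ 8)] at hcong
        exact absurd hcong (hpow2 8)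
      · rw [h1, (by norm_num : 16711936 = 2 ^ 8 * (97 * 673))] at hcong
        rcases (Nat.Prime.dvd_mul hq).1 hcong with h2 | h2
        · exact absurd h2 (hpow2 8)
        · rcases (Nat.Prime.dvd_mul hq).1 h2 with h3 | h3
          · exact Or.inl (hpr 97 (by norm_num) h3)
          · exact Or.inr (hpr 673 (by norm_num) h3)
    rcases hcase with rfl | rfl
    · -- `q = 97`: even exponents
      have hμ : Q * (1 - 1 / 288) ≤ Φ := by
        rw [hQ, hΦ]
        refine prod_cmp hT2 ?_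
        have h3n : 3 ∣ n := Nat.dvd_of_mem_primeFactors (mem_KK.1 (hjlt 0 (by norm_num)))
        have hform4 : ∀ p ∈ TT n, ∃ x y : ℕ, p - 1 = 4 ^ (x + 1) * 97 ^ (y + 1) := by
          intro p hp
          obtain ⟨x, y, hxy⟩ := hform p hp
          obtain ⟨hp1, -, hp7, -, -⟩ := hm p hp
          rcases Nat.even_or_odd' x with ⟨z, rfl | rfl⟩
          · exfalso
            have h5 : (2 ^ (2 * z + 1) * 97 ^ (y + 1)) % 3 = 2 := by
              rw [Nat.mul_mod, Nat.pow_mod 97, pow_succ, pow_mul, Nat.mul_mod (_ ^ z) 2 3,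
                Nat.pow_mod (2 ^ 2) z 3]
              norm_num
            have h6 : p % 3 = 0 := by omega
            have h7 : 3 ∣ p := Nat.dvd_of_mod_eq_zero h6
            have := (Nat.prime_dvd_prime_iff_eq Nat.prime_three hp1).1 h7
            omega
          · refine ⟨z, y, ?_⟩
            rw [hxy, (by ring : 2 * z + 1 + 1 = 2 * (z + 1)), pow_mul]
            norm_num
        have h1 := sumT (c := 4) (q := 97) (by norm_num) (by norm_num) (TT n) ∅ hT2 hform4
          (by simp) (by simp)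
        refine h1.trans (le_of_eq ?_)
        norm_num
      have h3 := fin _ hμ
      have h4' : 7301384 ≤ Nat.totient n := by norm_num at hφlow; exact hφlow
      have h4 : (7301384 : ℚ) ≤ (Nat.totient n : ℚ) := by exact_mod_cast h4'
      have h5 : Nat.fermatNumber 3 = 257 := by norm_num [Nat.fermatNumber]
      rw [h5] at h3
      norm_num at h3
      linarith
    · have h3 := fin _ (low 673 (by norm_num) (by norm_num))
      have h5 : Nat.fermatNumber 3 = 257 := by norm_num [Nat.fermatNumber]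
      rw [h5] at h3
      norm_num at h3
      linarith
  all_goals
    rcases K4 _ hKp (hjlt 0 (by omega)) (hjlt 1 (by omega)) (hjlt 2 (by omega))
      (hjlt 3 (by omega)) with h1 | h1
    · rw [h1, (by norm_num : 65536 = 2 ^ 16)] at hcong
      exact absurd hcong (hpow2 16)
    · rw [h1, (by norm_num : 4294967296 = 2 ^ 32)] at hcong
      exact absurd hcong (hpow2 32)

end Pool.Agent.Work.MP_cb106b_nt.FP
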