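import Pool.Agent.Work.MP_cb106b_nt.FermatPart
import Pool.Agent.Work.MP_cb106b_nt.Gold

/-!
# Solutions with at most two prime factors which are not Fermat primes: arithmetic
-/

set_option autoImplicit false

namespace Pool.Agent.Work.MP_cb106b_nt.FP

open Finset

/-- First size estimate. -/
theorem size1 {A R W q r : ℤ} (hA : 2 ≤ A) (hW : 1 ≤ W) (hR : (A ^ 2 - 1) * R < A ^ 2 * W)
    (hq : A + 1 < q) (hr : A + 1 < r) (h : (A - 1) * R * q * r + 1 = A * W * (q - 1) * (r - 1)) :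
    (q - (A + 1)) * (r - (A + 1)) ≤ A * (A + 1) := by
  by_contra hcon
  have h1 : A * (q * r) ≤ (A + 1) * ((q - 1) * (r - 1)) := by nlinarith
  have hV : 0 < A * W := by positivity
  have h2 : (A * W) * (A * (q * r)) ≤ (A * W) * ((A + 1) * ((q - 1) * (r - 1))) :=
    mul_le_mul_of_nonneg_left h1 hV.le
  have h3 : (A + 1) * ((A - 1) * R * q * r + 1) = (A + 1) * (A * W * (q - 1) * (r - 1)) := by
    rw [h]
  have hqr : 0 < q * r := by nlinarith
  have h4 : (A ^ 2 - 1) * R * (q * r) ≤ (A ^ 2 * W - 1) * (q * r) :=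
    mul_le_mul_of_nonneg_right (by linarith) hqr.le
  have h5 : A + 1 < q * r := by nlinarith
  nlinarith

/-- Second size estimate. -/
theorem size2 {A R W q r : ℤ} (hA : 2 ≤ A) (hW : 1 ≤ W) (hR : (A ^ 4 - 1) * R < A ^ 4 * W)
    (hq : A < q) (hr : A < r) (hqr : A ^ 3 + A ^ 2 + A + 1 ≤ q * r)
    (h : (A - 1) * R * q * r + 1 = A * W * (q - 1) * (r - 1)) :
    (A ^ 3 + A ^ 2 + A + 1) * ((q - 1) * (r - 1)) ≤ A ^ 3 * (q * r) := by
  by_contra hcon
  have h1 : A ^ 3 * (q * r) + 1 ≤ (A ^ 3 + A ^ 2 + A + 1) * ((q - 1) * (r - 1)) := by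
    push Not at hcon; exact hcon
  have hV : 0 < A * W := by positivity
  have h2 : (A * W) * (A ^ 3 * (q * r) + 1) ≤
      (A * W) * ((A ^ 3 + A ^ 2 + A + 1) * ((q - 1) * (r - 1))) :=
    mul_le_mul_of_nonneg_left h1 hV.le
  have h3 : (A ^ 3 + A ^ 2 + A + 1) * ((A - 1) * R * q * r + 1) =
      (A ^ 3 + A ^ 2 + A + 1) * (A * W * (q - 1) * (r - 1)) := by rw [h]
  have hqr0 : 0 < q * r := by nlinarith
  have h4 : (A ^ 4 - 1) * R * (q * r) ≤ (A ^ 4 * W - 1) * (q * r) :=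
    mul_le_mul_of_nonneg_right (by linarith) hqr0.le
  have e1 : (A ^ 3 + A ^ 2 + A + 1) * ((A - 1) * R * q * r + 1) =
      (A ^ 4 - 1) * R * (q * r) + (A ^ 3 + A ^ 2 + A + 1) := by ring
  have e2 : (A ^ 3 + A ^ 2 + A + 1) * (A * W * (q - 1) * (r - 1)) =
      (A * W) * ((A ^ 3 + A ^ 2 + A + 1) * ((q - 1) * (r - 1))) := by ring
  have e3 : (A ^ 4 * W - 1) * (q * r) = (A * W) * (A ^ 3 * (q * r)) - q * r := by ring
  have hAW : 1 ≤ A * W := by omega
  nlinarith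

/-- The case `j + 1 ∈ K`. -/
theorem caseI {A R R' W W' q r : ℤ} (hA : 2 ≤ A) (hW : 1 ≤ W')
    (hR : (A ^ 2 - 1) * R < A ^ 2 * W) (hRe : R = (A ^ 2 + 1) * R') (hWe : W = A ^ 2 * W')
    (hR' : A = 2 ∨ 4 * A ^ 3 ∣ A ^ 4 ∧ 4 * A ^ 3 ∣ R' - 1)
    (hq : A + 3 ≤ q) (hr : q + 2 ≤ r) (h4 : 4 ∣ (q - 1) * (r - 1))
    (h : (A - 1) * R * q * r + 1 = A * W * (q - 1) * (r - 1)) : False := by
  have hW1 : 1 ≤ W := by rw [hWe]; nlinarith [sq_nonneg A]
  have s1 := size1 hA hW1 hR (by linarith) (by linarith) h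
  rcases hR' with rfl | ⟨hd1, hd2⟩
  · nlinarith
  · -- the congruence
    have hd : 4 * A ^ 3 ∣ q * r - (A + 1) := by
      have e1 : (A + 1) * ((A - 1) * R * q * r + 1) = (A + 1) * (A * W * (q - 1) * (r - 1)) := by
        rw [h]
      have e2 : q * r - (A + 1) = A ^ 4 * (R' * (q * r)) - (R' - 1) * (q * r) -
          (A + 1) * (A ^ 3 * W' * ((q - 1) * (r - 1))) := by
        rw [hRe, hWe] at e1
        linear_combination -e1
      rw [e2]
      have d3 : 4 * A ^ 3 ∣ (A + 1) * (A ^ 3 * W' * ((q - 1) * (r - 1))) := by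
        obtain ⟨w, hw⟩ := h4
        rw [hw]
        exact ⟨(A + 1) * W' * w, by ring⟩
      exact dvd_sub (dvd_sub (hd1.mul_right _) (hd2.mul_right _)) d3
    have hpos : 0 < q * r - (A + 1) := by nlinarith
    have hle := Int.le_of_dvd hpos hd
    -- size
    have p1 : 0 ≤ (q - (A + 1) - 2) * (r - (A + 1) - 2) :=
      mul_nonneg (by linarith) (by linarith)
    have p2 : 2 * (q * r) ≤ (A + 1) * (A + 2) * (A + 3) := by nlinarith
    have p3 : 8 * A ^ 3 + 2 * A + 2 ≤ (A + 1) * (A + 2) * (A + 3) := by linarith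
    nlinarith [mul_self_nonneg (A - 2), mul_nonneg (by linarith : (0 : ℤ) ≤ A - 2)
      (mul_self_nonneg A)]

/-- The case `j + 1 ∉ K`, numerical part. -/
theorem caseII {A R W q r : ℤ} (hAn : A = 2 ∨ A = 4 ∨ A = 16 ∨ A = 256 ∨ A = 65536 ∨
      A = 4294967296) (hW : 1 ≤ W) (hR : (A ^ 4 - 1) * R < A ^ 4 * W)
    (hWd : A ^ 4 ∣ W) (hRd : A ^ 4 ∣ R - 1)
    (hq : A + 3 ≤ q) (hr : q + 2 ≤ r)
    (h : (A - 1) * R * q * r + 1 = A * W * (q - 1) * (r - 1)) : False := by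
  have hA : 2 ≤ A := by rcases hAn with rfl | rfl | rfl | rfl | rfl | rfl <;> norm_num
  have hd : A ^ 4 ∣ q * r - (A ^ 3 + A ^ 2 + A + 1) := by
    have e2 : q * r - (A ^ 3 + A ^ 2 + A + 1) = A ^ 4 * (q * r) + (A ^ 4 - 1) * (R - 1) * (q * r)
        - (A ^ 3 + A ^ 2 + A + 1) * A * W * ((q - 1) * (r - 1)) := by
      linear_combination (-(A ^ 3 + A ^ 2 + A + 1)) * h
    rw [e2]
    exact dvd_sub (dvd_add (dvd_mul_right _ _) ((hRd.mul_left _).mul_right _))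
      ((hWd.mul_left _).mul_right _)
  have hge : A ^ 3 + A ^ 2 + A + 1 ≤ q * r := by
    by_contra hcon
    push Not at hcon
    have h1 : 0 < q * r := by nlinarith
    have h2 : A ^ 4 ∣ (A ^ 3 + A ^ 2 + A + 1) - q * r := by
      rw [← neg_sub]; exact (dvd_neg).2 hd
    have h3 := Int.le_of_dvd (by linarith) h2
    have h4 : A ^ 3 + A ^ 2 + A + 1 ≤ A ^ 4 := by
      rcases hAn with rfl | rfl | rfl | rfl | rfl | rfl <;> norm_num
    linarith
  have s2 := size2 hA hW hR (by linarith) (by linarith) hge h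
  obtain ⟨s, rfl⟩ : ∃ s, q = A + s := ⟨q - A, by ring⟩
  obtain ⟨v, rfl⟩ : ∃ v, r = A + v := ⟨r - A, by ring⟩
  have hs : 3 ≤ s := by linarith
  have hv : 5 ≤ v := by linarith
  have p1 : 0 ≤ (s - 3) * (v - 3) := mul_nonneg (by linarith) (by linarith)
  have p2 : 0 ≤ (s - 3) * (v - 5) := mul_nonneg (by linarith) (by linarith)
  rcases hAn with rfl | rfl | rfl | rfl | rfl | rfl <;> nlinarith

end Pool.Agent.Work.MP_cb106b_nt.FP
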